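import Pool.Agent.Helper7.BT.JJa

/-!
# BT-JJb: potentials of bubbles
-/

set_option autoImplicit false

namespace Pool.Helper4.BT
open MeasureTheory Metric Set Laplacian InnerProductSpace

theorem JJb_A_pos {μ : ℝ} (hμ : 0 < μ) (z x : E) : 0 < A μ z x := by
  unfold A; positivity

theorem JJb_U_nonneg (μ : ℝ) (z x : E) : 0 ≤ U μ z x := by
  unfold U; positivity

theorem JJb_meas_A (μ : ℝ) (z : E) : Measurable (A μ z) := by
  unfold A; fun_prop

theorem JJb_meas_U (μ : ℝ) (z : E) : Measurable (U μ z) := by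
  unfold U
  exact measurable_const.div ((JJb_meas_A μ z).pow_const 2)

/-- `√A` is 1-Lipschitz -/
theorem JJb_sqrtA_le {μ : ℝ} (z x y : E) : √(A μ z x) ≤ √(A μ z y) + ‖x - y‖ := by
  have h1 : ‖x - z‖ ≤ ‖y - z‖ + ‖x - y‖ := by
    have : x - z = (y - z) + (x - y) := by abel
    rw [this]; exact norm_add_le _ _
  have h2 : ‖y - z‖ ≤ √(A μ z y) := by
    apply Real.le_sqrt_of_sq_le
    unfold A; nlinarith [sq_nonneg μ]
  rw [Real.sqrt_le_left (by positivity)]
  have h3 : √(A μ z y) ^ 2 = μ ^ 2 + ‖y - z‖ ^ 2 := by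
    rw [Real.sq_sqrt (by unfold A; positivity)]; rfl
  have h4 := norm_nonneg (x - z)
  have h5 := norm_nonneg (y - z)
  have h6 := norm_nonneg (x - y)
  have h7 := Real.sqrt_nonneg (A μ z y)
  have h8 : A μ z x = μ ^ 2 + ‖x - z‖ ^ 2 := rfl
  rw [h8]
  nlinarith [mul_le_mul_of_nonneg_right h2 h6]

/-- comparison of `A` near `x` -/
theorem JJb_A_near {μ : ℝ} (hμ : 0 < μ) (z x y : E) (h : ‖x - y‖ ≤ √(A μ z x) / 2) :
    A μ z x ≤ 4 * A μ z y := by
  have h1 := JJb_sqrtA_le (μ := μ) z x y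
  have h2 : √(A μ z x) ≤ 2 * √(A μ z y) := by linarith
  have h3 := Real.sq_sqrt (JJb_A_pos hμ z x).le
  have h4 := Real.sq_sqrt (JJb_A_pos hμ z y).le
  have h5 := Real.sqrt_nonneg (A μ z x)
  rw [← h3, ← h4]
  nlinarith

theorem JJb_mu_le {μ : ℝ} (hμ : 0 < μ) (z x : E) : μ ≤ √(A μ z x) := by
  apply Real.le_sqrt_of_sq_le
  unfold A; nlinarith [sq_nonneg ‖x - z‖]

/-- scaling -/
theorem JJb_scale (F : E → ℝ) {μ : ℝ} (hμ : 0 < μ) (z : E) :
    ∫ x, F (μ⁻¹ • (x - z)) = μ ^ 6 * ∫ x, F x := by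
  rw [integral_sub_right_eq_self (fun x => F (μ⁻¹ • x)) z, Measure.integral_comp_smul,
    JJa_finrank, smul_eq_mul]
  congr 1
  rw [abs_of_pos (by positivity)]
  simp

theorem JJb_scale_int {F : E → ℝ} (hF : Integrable F) {μ : ℝ} (hμ : 0 < μ) (z : E) :
    Integrable fun x => F (μ⁻¹ • (x - z)) := by
  have h1 : Integrable fun x => F (μ⁻¹ • x) := hF.comp_smul (inv_ne_zero hμ.ne')
  exact h1.comp_sub_right z

/-- the integral of a power of `A` -/
theorem JJb_int_A {q : ℝ} (hq : 3 < q) : ∃ c : ℝ, 0 ≤ c ∧ ∀ (μ : ℝ) (z : E), 0 < μ →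
    Integrable (fun x => A μ z x ^ (-q)) ∧ ∫ x, A μ z x ^ (-q) = c * μ ^ (6 - 2 * q) := by
  have h0 : Integrable (fun w : E => ((1 : ℝ) + ‖w‖ ^ 2) ^ (-q)) := by
    have := integrable_rpow_neg_one_add_norm_sq (E := E) (μ := volume) (r := 2 * q)
      (by rw [JJa_finrank]; push_cast; linarith)
    simpa [show -(2 * q) / 2 = -q by ring] using this
  refine ⟨∫ w : E, ((1 : ℝ) + ‖w‖ ^ 2) ^ (-q), integral_nonneg fun w => by positivity, ?_⟩
  intro μ z hμ
  have e : ∀ x, A μ z x ^ (-q) = μ ^ (-2 * q) *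
      (fun w : E => ((1 : ℝ) + ‖w‖ ^ 2) ^ (-q)) (μ⁻¹ • (x - z)) := by
    intro x
    have h1 : A μ z x = μ ^ 2 * (1 + ‖μ⁻¹ • (x - z)‖ ^ 2) := by
      unfold A
      rw [norm_smul, norm_inv, Real.norm_of_nonneg hμ.le]
      field_simp
    simp only
    rw [h1, Real.mul_rpow (by positivity) (by positivity), ← Real.rpow_natCast,
      ← Real.rpow_mul hμ.le]
    congr 2
    push_cast
    ring
  simp_rw [e]
  refine ⟨(JJb_scale_int h0 hμ z).const_mul _, ?_⟩
  have hsc := JJb_scale (fun w : E => ((1 : ℝ) + ‖w‖ ^ 2) ^ (-q)) hμ z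
  rw [integral_const_mul, hsc]
  rw [mul_left_comm, ← mul_assoc, mul_comm _ (μ ^ (6 - 2 * q))]
  congr 1
  rw [← Real.rpow_natCast, ← Real.rpow_add hμ]
  congr 1
  push_cast
  ring

theorem JJb_lint {f : E → ℝ} (hf : Integrable f) (h0 : ∀ y, 0 ≤ f y) {I : ℝ}
    (hI : ∫ y, f y ≤ I) : ∫⁻ y, ENNReal.ofReal (f y) ≤ ENNReal.ofReal I := by
  rw [← ofReal_integral_eq_lintegral_ofReal hf (Filter.Eventually.of_forall h0)]
  exact ENNReal.ofReal_le_ofReal hI

/-- the square of the bubble -/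
theorem JJb_int_U_sq : ∃ c : ℝ, 0 ≤ c ∧ ∀ (μ : ℝ) (z : E), 0 < μ →
    ∫⁻ y, ENNReal.ofReal (U μ z y ^ 2) ≤ ENNReal.ofReal (c * μ ^ 2) := by
  obtain ⟨c, hc, h⟩ := JJb_int_A (q := 4) (by norm_num)
  refine ⟨576 * c, by positivity, fun μ z hμ => ?_⟩
  obtain ⟨h1, h2⟩ := h μ z hμ
  have e : ∀ y, U μ z y ^ 2 = 576 * μ ^ 4 * A μ z y ^ (-4 : ℝ) := by
    intro y
    have := JJb_A_pos hμ z y
    unfold U
    rw [Real.rpow_neg this.le, show (4 : ℝ) = ((4 : ℕ) : ℝ) by norm_num, Real.rpow_natCast]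
    field_simp
    ring
  refine JJb_lint ?_ (fun y => by positivity) ?_
  · simp_rw [e]; exact h1.const_mul _
  · simp_rw [e]
    rw [integral_const_mul, h2, show (6 : ℝ) - 2 * 4 = ((-2 : ℤ) : ℝ) by norm_num,
      Real.rpow_intCast]
    have := hμ.ne'
    apply le_of_eq
    field_simp

theorem U_cmp {μ ρ : ℝ} (hμ : 0 < μ) (hρ : 0 < ρ) {z c y : E} (hz : ‖z - c‖ ≤ ρ / 4)
    (hy : ρ ≤ ‖y - c‖) : U μ z y ≤ 13 * (μ ^ 2 / ρ ^ 2) * U ρ c y := by
  have h1 : ‖y - c‖ ≤ ‖y - z‖ + ‖z - c‖ := by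
    have : y - c = (y - z) + (z - c) := by abel
    rw [this]; exact norm_add_le _ _
  set r := ‖y - c‖ with hr
  have hr0 : 0 < r := hρ.trans_le hy
  have h2 : 3 / 4 * r ≤ ‖y - z‖ := by linarith
  have h3 : 9 / 16 * r ^ 2 ≤ A μ z y := by
    unfold A
    nlinarith [sq_nonneg μ]
  have h4 : A ρ c y ≤ 2 * r ^ 2 := by
    unfold A
    rw [← hr]
    nlinarith
  have h5 : 0 < A ρ c y := JJb_A_pos hρ c y
  have h6 : A ρ c y ^ 2 ≤ 4 * r ^ 4 := by nlinarith
  have h7 : 81 / 256 * r ^ 4 ≤ A μ z y ^ 2 := by nlinarith [sq_nonneg (r ^ 2), sq_nonneg r]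
  unfold U
  have e : 13 * (μ ^ 2 / ρ ^ 2) * (24 * ρ ^ 2 / A ρ c y ^ 2) = 24 * μ ^ 2 * (13 / A ρ c y ^ 2) := by
    field_simp
  rw [e, mul_div_assoc (24 : ℝ)]
  have h8 : 0 < A μ z y := JJb_A_pos hμ z y
  rw [mul_assoc]
  refine mul_le_mul_of_nonneg_left ?_ (by norm_num)
  rw [div_eq_mul_one_div]
  refine mul_le_mul_of_nonneg_left ?_ (by positivity)
  rw [div_le_div_iff₀ (by positivity) (by positivity)]
  have h9 : 0 < r ^ 4 := by positivity
  nlinarith

/-- the common computation: potentials of a function comparable to its value near `x` -/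
theorem J_U_sq : ∃ C : ℝ, 0 < C ∧ ∀ (μ : ℝ) (z x : E), 0 < μ →
    J 4 (fun y => U μ z y ^ 2) x ≤ ENNReal.ofReal (C * U μ z x) ∧
    J 5 (fun y => U μ z y ^ 2) x ≤ ENNReal.ofReal (C * U μ z x / √(A μ z x)) := by
  obtain ⟨C, hC, hsplit⟩ := J_split
  obtain ⟨c, hc, hint⟩ := JJb_int_U_sq
  refine ⟨C * 3072 + 2 * c, by positivity, fun μ z x hμ => ?_⟩
  have hA := JJb_A_pos hμ z x
  obtain ⟨a, ha⟩ : ∃ a : ℝ, a = √(A μ z x) := ⟨_, rfl⟩
  have ha0 : 0 < a := by rw [ha]; exact Real.sqrt_pos.2 hA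
  have haA : A μ z x = a ^ 2 := by rw [ha, Real.sq_sqrt hA.le]
  have hμa : μ ≤ a := by rw [ha]; exact JJb_mu_le hμ z x
  have hU : U μ z x = 24 * μ ^ 2 / a ^ 4 := by unfold U; rw [haA]; ring
  have hnear : ∀ y ∈ ball x (a / 2), U μ z y ^ 2 ≤ 256 * U μ z x ^ 2 := by
    intro y hy
    rw [mem_ball, dist_comm, dist_eq_norm] at hy
    have h1 := JJb_A_near hμ z x y (by rw [← ha]; exact hy.le)
    have h2 : U μ z y ≤ 16 * U μ z x := by
      unfold U
      have h3 := JJb_A_pos hμ z y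
      rw [← mul_div_assoc, div_le_div_iff₀ (by positivity) (by positivity)]
      have : A μ z x ^ 2 ≤ 16 * A μ z y ^ 2 := by nlinarith
      have h4 : 0 < μ ^ 2 := by positivity
      nlinarith
    have h3 := JJb_U_nonneg μ z y
    nlinarith
  have hsq : μ ^ 2 ≤ a ^ 2 := by nlinarith
  have key : ∀ m : ℕ, m = 4 ∨ m = 5 → J m (fun y => U μ z y ^ 2) x ≤
      ENNReal.ofReal (C * (256 * U μ z x ^ 2) * (a / 2) ^ (6 - m) + (c * μ ^ 2) / (a / 2) ^ m) :=
    fun m hm => hsplit m _ x (a / 2) _ _ hm (by positivity) (by positivity) (by positivity)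
      (fun y => by positivity) hnear (hint μ z hμ)
  constructor
  · refine (key 4 (Or.inl rfl)).trans (ENNReal.ofReal_le_ofReal ?_)
    rw [hU]
    norm_num
    have e1 : C * (256 * (24 * μ ^ 2 / a ^ 4) ^ 2) * (a / 2) ^ 2 =
        C * 36864 * μ ^ 2 / a ^ 4 * (μ ^ 2 / a ^ 2) := by field_simp; ring
    have e2 : c * μ ^ 2 / (a / 2) ^ 4 = 16 * c * (μ ^ 2 / a ^ 4) := by field_simp; ring
    have e3 : (C * 3072 + 2 * c) * (24 * μ ^ 2 / a ^ 4) =
        C * 73728 * μ ^ 2 / a ^ 4 + 48 * c * (μ ^ 2 / a ^ 4) := by ring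
    rw [e1, e2, e3]
    have h1 : μ ^ 2 / a ^ 2 ≤ 1 := by rw [div_le_one (by positivity)]; exact hsq
    have h2 : 0 ≤ C * 36864 * μ ^ 2 / a ^ 4 := by positivity
    have h3 : 0 ≤ c * (μ ^ 2 / a ^ 4) := by positivity
    have h4 : C * 73728 * μ ^ 2 / a ^ 4 = 2 * (C * 36864 * μ ^ 2 / a ^ 4) := by ring
    rw [h4]
    nlinarith
  · refine (key 5 (Or.inr rfl)).trans (ENNReal.ofReal_le_ofReal ?_)
    rw [← ha, hU]
    norm_num
    have e1 : C * (256 * (24 * μ ^ 2 / a ^ 4) ^ 2) * (a / 2) =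
        C * 73728 * μ ^ 2 / a ^ 5 * (μ ^ 2 / a ^ 2) := by field_simp; ring
    have e2 : c * μ ^ 2 / (a / 2) ^ 5 = 32 * c * (μ ^ 2 / a ^ 5) := by field_simp; ring
    have e3 : (C * 3072 + 2 * c) * (24 * μ ^ 2 / a ^ 4) / a =
        C * 73728 * μ ^ 2 / a ^ 5 + 48 * c * (μ ^ 2 / a ^ 5) := by field_simp; ring
    rw [e1, e2, e3]
    have h1 : μ ^ 2 / a ^ 2 ≤ 1 := by rw [div_le_one (by positivity)]; exact hsq
    have h2 : 0 ≤ C * 73728 * μ ^ 2 / a ^ 5 := by positivity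
    have h3 : 0 ≤ c * (μ ^ 2 / a ^ 5) := by positivity
    nlinarith

theorem J_U_sq_tail : ∃ C : ℝ, 0 < C ∧ ∀ (μ K : ℝ) (z x : E), 0 < μ → 1 ≤ K →
    J 4 ({y | K * μ ≤ ‖y - z‖}.indicator (fun y => U μ z y ^ 2)) x
      ≤ ENNReal.ofReal (C / K * U μ z x) ∧
    J 5 ({y | K * μ ≤ ‖y - z‖}.indicator (fun y => U μ z y ^ 2)) x
      ≤ ENNReal.ofReal (C / K * U μ z x / √(A μ z x)) := by
  obtain ⟨C, hC, hsplit⟩ := J_split
  obtain ⟨c, hc, hint⟩ := JJb_int_A (q := 7 / 2) (by norm_num)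
  refine ⟨C * 3072 + 768 * c, by positivity, fun μ K z x hμ hK => ?_⟩
  have hK0 : 0 < K := by linarith
  have hA := JJb_A_pos hμ z x
  obtain ⟨a, ha⟩ : ∃ a : ℝ, a = √(A μ z x) := ⟨_, rfl⟩
  have ha0 : 0 < a := by rw [ha]; exact Real.sqrt_pos.2 hA
  have haA : A μ z x = a ^ 2 := by rw [ha, Real.sq_sqrt hA.le]
  have hμa : μ ≤ a := by rw [ha]; exact JJb_mu_le hμ z x
  have hU : U μ z x = 24 * μ ^ 2 / a ^ 4 := by unfold U; rw [haA]; ring
  -- the majorant
  obtain ⟨g, hg⟩ : ∃ g : E → ℝ, g = fun y => 576 * μ ^ 3 / K * A μ z y ^ (-(7 / 2) : ℝ) := ⟨_, rfl⟩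
  have hgb : ∀ y, g y = 576 * μ ^ 3 / (K * √(A μ z y) ^ 7) := by
    intro y
    have h1 := JJb_A_pos hμ z y
    have h7 : √(A μ z y) ^ 7 = A μ z y ^ (7 / 2 : ℝ) := by
      rw [Real.sqrt_eq_rpow, ← Real.rpow_natCast, ← Real.rpow_mul h1.le]
      norm_num
    have h8 : 0 < A μ z y ^ (7 / 2 : ℝ) := Real.rpow_pos_of_pos h1 _
    rw [hg]
    simp only
    rw [Real.rpow_neg h1.le, h7]
    field_simp
  have hmaj : ∀ y, {y | K * μ ≤ ‖y - z‖}.indicator (fun y => U μ z y ^ 2) y ≤ g y := by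
    intro y
    have h1 := JJb_A_pos hμ z y
    have hb0 : 0 < √(A μ z y) := Real.sqrt_pos.2 h1
    rw [hgb]
    by_cases hy : y ∈ {y | K * μ ≤ ‖y - z‖}
    · rw [indicator_of_mem hy]
      have hy' : K * μ ≤ ‖y - z‖ := hy
      have h2 : K * μ ≤ √(A μ z y) := by
        refine hy'.trans ?_
        apply Real.le_sqrt_of_sq_le
        unfold A; nlinarith [sq_nonneg μ]
      have h3 : U μ z y = 24 * μ ^ 2 / √(A μ z y) ^ 4 := by
        unfold U
        congr 1
        nth_rw 1 [← Real.sq_sqrt h1.le]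
        ring
      rw [h3]
      generalize √(A μ z y) = b at hb0 h2
      rw [div_pow, div_le_div_iff₀ (by positivity) (by positivity)]
      have h4 : 0 < μ ^ 3 * b ^ 7 := by positivity
      have e1 : (24 * μ ^ 2) ^ 2 * (K * b ^ 7) = 576 * (μ ^ 3 * b ^ 7) * (K * μ) := by ring
      have e2 : 576 * μ ^ 3 * (b ^ 4) ^ 2 = 576 * (μ ^ 3 * b ^ 7) * b := by ring
      rw [e1, e2]
      exact mul_le_mul_of_nonneg_left h2 (by positivity)
    · rw [indicator_of_notMem hy]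
      positivity
  have hg0 : ∀ y, 0 ≤ g y := by
    intro y
    rw [hgb]
    have hb0 : 0 < √(A μ z y) := Real.sqrt_pos.2 (JJb_A_pos hμ z y)
    positivity
  have hgi : ∫⁻ y, ENNReal.ofReal (g y) ≤ ENNReal.ofReal (576 * c * μ ^ 2 / K) := by
    obtain ⟨h1, h2⟩ := hint μ z hμ
    refine JJb_lint ?_ hg0 ?_
    · rw [hg]; exact h1.const_mul _
    · rw [hg]
      rw [integral_const_mul, h2, show (6 : ℝ) - 2 * (7 / 2) = ((-1 : ℤ) : ℝ) by norm_num,
        Real.rpow_intCast]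
      have := hμ.ne'
      apply le_of_eq
      field_simp
  have hnear : ∀ y ∈ ball x (a / 2), g y ≤ 73728 * μ ^ 3 / (K * a ^ 7) := by
    intro y hy
    rw [mem_ball, dist_comm, dist_eq_norm] at hy
    have h1 := JJb_sqrtA_le (μ := μ) z x y
    rw [← ha] at h1
    have h2 : a ≤ 2 * √(A μ z y) := by linarith
    have hb0 : 0 < √(A μ z y) := Real.sqrt_pos.2 (JJb_A_pos hμ z y)
    rw [hgb]
    generalize √(A μ z y) = b at hb0 h2
    rw [div_le_div_iff₀ (by positivity) (by positivity)]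
    have h3 : a ^ 7 ≤ (2 * b) ^ 7 := pow_le_pow_left₀ ha0.le h2 7
    have h4 : 0 < μ ^ 3 * K := by positivity
    have e1 : 576 * μ ^ 3 * (K * a ^ 7) = 576 * (μ ^ 3 * K) * a ^ 7 := by ring
    have e2 : 73728 * μ ^ 3 * (K * b ^ 7) = 576 * (μ ^ 3 * K) * (2 * b) ^ 7 := by ring
    rw [e1, e2]
    exact mul_le_mul_of_nonneg_left h3 (by positivity)
  have key : ∀ m : ℕ, m = 4 ∨ m = 5 →
      J m ({y | K * μ ≤ ‖y - z‖}.indicator (fun y => U μ z y ^ 2)) x ≤
      ENNReal.ofReal (C * (73728 * μ ^ 3 / (K * a ^ 7)) * (a / 2) ^ (6 - m) +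
        (576 * c * μ ^ 2 / K) / (a / 2) ^ m) :=
    fun m hm => (J_mono hmaj x).trans (hsplit m _ x (a / 2) _ _ hm (by positivity) (by positivity)
      (by positivity) hg0 hnear hgi)
  have h1 : μ / a ≤ 1 := by rw [div_le_one ha0]; exact hμa
  constructor
  · refine (key 4 (Or.inl rfl)).trans (ENNReal.ofReal_le_ofReal ?_)
    rw [hU]
    norm_num
    have e1 : C * (73728 * μ ^ 3 / (K * a ^ 7)) * (a / 2) ^ 2 =
        C * 18432 * μ ^ 2 / (K * a ^ 4) * (μ / a) := by field_simp; ring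
    have e2 : 576 * c * μ ^ 2 / K / (a / 2) ^ 4 = 9216 * c * (μ ^ 2 / (K * a ^ 4)) := by
      field_simp; ring
    have e3 : (C * 3072 + 768 * c) / K * (24 * μ ^ 2 / a ^ 4) =
        4 * (C * 18432 * μ ^ 2 / (K * a ^ 4)) + 18432 * c * (μ ^ 2 / (K * a ^ 4)) := by
      field_simp; ring
    rw [e1, e2, e3]
    have h2 : 0 ≤ C * 18432 * μ ^ 2 / (K * a ^ 4) := by positivity
    have h3 : 0 ≤ c * (μ ^ 2 / (K * a ^ 4)) := by positivity
    nlinarith
  · refine (key 5 (Or.inr rfl)).trans (ENNReal.ofReal_le_ofReal ?_)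
    rw [← ha, hU]
    norm_num
    have e1 : C * (73728 * μ ^ 3 / (K * a ^ 7)) * (a / 2) =
        C * 36864 * μ ^ 2 / (K * a ^ 5) * (μ / a) := by field_simp; ring
    have e2 : 576 * c * μ ^ 2 / K / (a / 2) ^ 5 = 18432 * c * (μ ^ 2 / (K * a ^ 5)) := by
      field_simp; ring
    have e3 : (C * 3072 + 768 * c) / K * (24 * μ ^ 2 / a ^ 4) / a =
        2 * (C * 36864 * μ ^ 2 / (K * a ^ 5)) + 18432 * c * (μ ^ 2 / (K * a ^ 5)) := by
      field_simp; ring
    rw [e1, e2, e3]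
    have h2 : 0 ≤ C * 36864 * μ ^ 2 / (K * a ^ 5) := by positivity
    nlinarith

/-- far integral of the kernel -/
theorem JJb_far {s : ℝ} (hs : 0 < s) (x : E) :
    ∫⁻ y in (ball x s)ᶜ, ENNReal.ofReal (1 / ‖x - y‖ ^ 8) ≤ ENNReal.ofReal (JJa_c / s ^ 2) := by
  have hfin := JJa_finrank
  -- the radial profile
  have hprof : ∀ y : ℝ, y ^ (6 - 1) • (Ici s).indicator (fun r : ℝ => 1 / r ^ 8) y =
      (Ici s).indicator (fun y : ℝ => y ^ 5 / y ^ 8) y := by
    intro y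
    by_cases hy : y ∈ Ici s
    · rw [indicator_of_mem hy, indicator_of_mem hy, smul_eq_mul]; ring
    · rw [indicator_of_notMem hy, indicator_of_notMem hy, smul_zero]
  have hpow : ∀ y ∈ Ioi s, y ^ 5 / y ^ 8 = y ^ (-3 : ℝ) := by
    intro y hy
    have hy0 : 0 < y := hs.trans hy
    rw [Real.rpow_neg hy0.le, show (3 : ℝ) = ((3 : ℕ) : ℝ) by norm_num, Real.rpow_natCast]
    field_simp
  have hI0 : IntegrableOn (fun y : ℝ => y ^ 5 / y ^ 8) (Ioi s) :=
    (integrableOn_Ioi_rpow_of_lt (by norm_num : (-3 : ℝ) < -1) hs).congr_fun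
      (fun y hy => (hpow y hy).symm) measurableSet_Ioi
  have hint : Integrable (fun w : E => (Ici s).indicator (fun r : ℝ => 1 / r ^ 8) ‖w‖) := by
    rw [integrable_fun_norm_addHaar (volume : Measure E), hfin]
    simp_rw [hprof]
    have h1 : IntegrableOn (fun y : ℝ => y ^ 5 / y ^ 8) (Ici s) := by
      rw [integrableOn_Ici_iff_integrableOn_Ioi]; exact hI0
    exact (h1.integrable_indicator measurableSet_Ici).integrableOn
  have hval : ∫ w : E, (Ici s).indicator (fun r : ℝ => 1 / r ^ 8) ‖w‖ ≤ JJa_c / s ^ 2 := by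
    rw [integral_fun_norm_addHaar (volume : Measure E), hfin]
    simp_rw [hprof]
    rw [setIntegral_indicator measurableSet_Ici, inter_eq_right.2 (Ici_subset_Ioi.2 hs),
      integral_Ici_eq_integral_Ioi, setIntegral_congr_fun measurableSet_Ioi hpow,
      integral_Ioi_rpow_of_lt (by norm_num) hs]
    unfold JJa_c
    have hv : 0 ≤ volume.real (ball (0 : E) 1) := measureReal_nonneg
    have e1 : s ^ ((-3 : ℝ) + 1) = 1 / s ^ 2 := by
      rw [show (-3 : ℝ) + 1 = -((2 : ℕ) : ℝ) by norm_num, Real.rpow_neg hs.le, Real.rpow_natCast,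
        one_div]
    rw [e1]
    simp only [nsmul_eq_mul, smul_eq_mul]
    have h1 : 0 ≤ volume.real (ball (0 : E) 1) / s ^ 2 := by positivity
    have e2 : ((6 : ℕ) : ℝ) * (volume.real (ball (0 : E) 1) * (-(1 / s ^ 2) / (-3 + 1))) =
        3 * (volume.real (ball (0 : E) 1) / s ^ 2) := by
      push_cast
      field_simp
      norm_num
      ring
    rw [e2, mul_div_assoc]
    linarith
  have e1 : ∫⁻ y in (ball x s)ᶜ, ENNReal.ofReal (1 / ‖x - y‖ ^ 8) =
      ∫⁻ y, (fun w : E => ENNReal.ofReal ((Ici s).indicator (fun r : ℝ => 1 / r ^ 8) ‖w‖))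
        (x - y) := by
    rw [← lintegral_indicator measurableSet_ball.compl]
    refine lintegral_congr fun y => ?_
    by_cases hy : y ∈ ball x s
    · have hy' : ‖x - y‖ ∉ Ici s := by
        rw [mem_Ici, not_le, ← dist_eq_norm, dist_comm]; exact hy
      simp only
      rw [indicator_of_notMem (show y ∉ (ball x s)ᶜ by simpa using hy),
        indicator_of_notMem hy', ENNReal.ofReal_zero]
    · have hy' : ‖x - y‖ ∈ Ici s := by
        rw [mem_Ici, ← dist_eq_norm, dist_comm, ← not_lt]; exact hy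
      simp only
      rw [indicator_of_mem (show y ∈ (ball x s)ᶜ from hy), indicator_of_mem hy']
  rw [e1, lintegral_sub_left_eq_self (fun w : E =>
      ENNReal.ofReal ((Ici s).indicator (fun r : ℝ => 1 / r ^ 8) ‖w‖)) x,
    ← ofReal_integral_eq_lintegral_ofReal hint (Filter.Eventually.of_forall fun w =>
      indicator_nonneg (fun r hr => by have : 0 < r := hs.trans_le hr; positivity) _)]
  exact ENNReal.ofReal_le_ofReal hval

theorem J_U : ∃ C : ℝ, 0 < C ∧ ∀ (μ : ℝ) (z x : E), 0 < μ →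
    J 4 (U μ z) x ≤ ENNReal.ofReal (C * μ ^ 2 / A μ z x) ∧
    J 5 (U μ z) x ≤ ENNReal.ofReal (C * μ ^ 2 / (A μ z x * √(A μ z x))) := by
  have hc := JJa_c_pos
  refine ⟨2000 * JJa_c, by positivity, fun μ z x hμ => ?_⟩
  have hA := JJb_A_pos hμ z x
  obtain ⟨a, ha⟩ : ∃ a : ℝ, a = √(A μ z x) := ⟨_, rfl⟩
  have ha0 : 0 < a := by rw [ha]; exact Real.sqrt_pos.2 hA
  have haA : A μ z x = a ^ 2 := by rw [ha, Real.sq_sqrt hA.le]
  have hU : U μ z x = 24 * μ ^ 2 / a ^ 4 := by unfold U; rw [haA]; ring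
  have hs : 0 < a / 2 := by positivity
  -- pointwise bounds
  have hnear : ∀ y ∈ ball x (a / 2), U μ z y ≤ 384 * μ ^ 2 / a ^ 4 := by
    intro y hy
    rw [mem_ball, dist_comm, dist_eq_norm] at hy
    have h1 := JJb_A_near hμ z x y (by rw [← ha]; exact hy.le)
    rw [haA] at h1
    have h3 := JJb_A_pos hμ z y
    unfold U
    rw [div_le_div_iff₀ (by positivity) (by positivity)]
    have : a ^ 4 ≤ 16 * A μ z y ^ 2 := by nlinarith [sq_nonneg a]
    have h4 : 0 < μ ^ 2 := by positivity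
    nlinarith
  have hgen : ∀ y, U μ z y ≤ 24 * μ ^ 2 * (1 / ‖z - y‖ ^ 4) ∨ z = y := by
    intro y
    by_cases hzy : z = y
    · right; exact hzy
    · left
      have h1 : 0 < ‖z - y‖ := norm_pos_iff.2 (sub_ne_zero.2 hzy)
      unfold U
      rw [mul_one_div]
      refine div_le_div_of_nonneg_left (by positivity) (by positivity) ?_
      have h2 : ‖z - y‖ ^ 2 ≤ A μ z y := by
        unfold A; rw [norm_sub_rev]; nlinarith [sq_nonneg μ]
      nlinarith [sq_nonneg ‖z - y‖]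
  -- the three parts
  have key : ∀ m : ℕ, m = 4 ∨ m = 5 → J m (U μ z) x ≤
      ENNReal.ofReal (384 * μ ^ 2 / a ^ 4) * ENNReal.ofReal (JJa_c * (a / 2) ^ (6 - m)) +
      (ENNReal.ofReal (24 * μ ^ 2 / (a / 2) ^ m) * ENNReal.ofReal (JJa_c * (a / 2) ^ (6 - 4)) +
        (ENNReal.ofReal (24 * μ ^ 2 / (a / 2) ^ (m - 4)) * ENNReal.ofReal (JJa_c / (a / 2) ^ 2) +
         ENNReal.ofReal (24 * μ ^ 2 / (a / 2) ^ (m - 4)) * ENNReal.ofReal (JJa_c / (a / 2) ^ 2))) := by
    intro m hm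
    unfold J
    rw [← lintegral_add_compl _ (measurableSet_ball (x := x) (ε := a / 2))]
    refine add_le_add ?_ ?_
    · calc ∫⁻ y in ball x (a / 2), ENNReal.ofReal (U μ z y / ‖x - y‖ ^ m)
          ≤ ∫⁻ y in ball x (a / 2), ENNReal.ofReal (384 * μ ^ 2 / a ^ 4) *
              ENNReal.ofReal (1 / ‖x - y‖ ^ m) := by
            refine setLIntegral_mono' measurableSet_ball fun y hy => ?_
            rw [← ENNReal.ofReal_mul (by positivity), mul_one_div]
            exact ENNReal.ofReal_le_ofReal (div_le_div_of_nonneg_right (hnear y hy)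
              (by positivity))
        _ = _ := lintegral_const_mul' _ _ ENNReal.ofReal_ne_top
        _ ≤ _ := by
            gcongr
            exact JJa_lnear hm hs x
    · obtain ⟨F1, hF1⟩ : ∃ F1 : E → ENNReal, F1 = (ball z (a / 2)).indicator (fun y =>
          ENNReal.ofReal (24 * μ ^ 2 / (a / 2) ^ m) * ENNReal.ofReal (1 / ‖z - y‖ ^ 4)) := ⟨_, rfl⟩
      obtain ⟨F2, hF2⟩ : ∃ F2 : E → ENNReal, F2 = (ball x (a / 2))ᶜ.indicator (fun y =>
          ENNReal.ofReal (24 * μ ^ 2 / (a / 2) ^ (m - 4)) * ENNReal.ofReal (1 / ‖x - y‖ ^ 8)) :=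
        ⟨_, rfl⟩
      obtain ⟨F3, hF3⟩ : ∃ F3 : E → ENNReal, F3 = (ball z (a / 2))ᶜ.indicator (fun y =>
          ENNReal.ofReal (24 * μ ^ 2 / (a / 2) ^ (m - 4)) * ENNReal.ofReal (1 / ‖z - y‖ ^ 8)) :=
        ⟨_, rfl⟩
      have hpt : ∀ y, y ≠ z → y ∈ (ball x (a / 2))ᶜ → ENNReal.ofReal (U μ z y / ‖x - y‖ ^ m) ≤
          F1 y + (F2 y + F3 y) := by
        intro y hyz hy
        have h1 : a / 2 ≤ ‖x - y‖ := by
          rw [mem_compl_iff, mem_ball, not_lt, dist_comm, dist_eq_norm] at hy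
          exact hy
        have hU1 := (hgen y).resolve_right (fun h => hyz h.symm)
        have hp : 0 < ‖x - y‖ := hs.trans_le h1
        have hq : 0 < ‖z - y‖ := norm_pos_iff.2 (sub_ne_zero.2 (fun h => hyz h.symm))
        by_cases hyb : y ∈ ball z (a / 2)
        · rw [hF1, indicator_of_mem hyb]
          refine le_trans ?_ le_self_add
          rw [← ENNReal.ofReal_mul (by positivity)]
          refine ENNReal.ofReal_le_ofReal ?_
          calc U μ z y / ‖x - y‖ ^ m ≤ (24 * μ ^ 2 * (1 / ‖z - y‖ ^ 4)) / (a / 2) ^ m := by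
                gcongr
            _ = _ := by ring
        · rw [hF1, hF2, hF3, indicator_of_notMem hyb, zero_add,
            indicator_of_mem (show y ∈ (ball x (a / 2))ᶜ from hy),
            indicator_of_mem (show y ∈ (ball z (a / 2))ᶜ from hyb),
            ← ENNReal.ofReal_mul (by positivity), ← ENNReal.ofReal_mul (by positivity),
            ← ENNReal.ofReal_add (by positivity) (by positivity)]
          refine ENNReal.ofReal_le_ofReal ?_
          have h2 : U μ z y / ‖x - y‖ ^ m ≤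
              (24 * μ ^ 2 / (a / 2) ^ (m - 4)) * ((1 / ‖z - y‖ ^ 4) * (1 / ‖x - y‖ ^ 4)) := by
            have h3 : ‖x - y‖ ^ m = ‖x - y‖ ^ (m - 4) * ‖x - y‖ ^ 4 := by
              rw [← pow_add]; congr 1; rcases hm with rfl | rfl <;> norm_num
            rw [h3]
            calc U μ z y / (‖x - y‖ ^ (m - 4) * ‖x - y‖ ^ 4)
                ≤ (24 * μ ^ 2 * (1 / ‖z - y‖ ^ 4)) / ((a / 2) ^ (m - 4) * ‖x - y‖ ^ 4) := by
                  gcongr
              _ = _ := by field_simp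
          refine h2.trans ?_
          rw [← mul_add]
          refine mul_le_mul_of_nonneg_left ?_ (by positivity)
          have e8 : ∀ t : ℝ, 1 / t ^ 8 = (1 / t ^ 4) ^ 2 := by intro t; ring
          rw [e8, e8]
          nlinarith [sq_nonneg (1 / ‖z - y‖ ^ 4 - 1 / ‖x - y‖ ^ 4),
            sq_nonneg (1 / ‖z - y‖ ^ 4), sq_nonneg (1 / ‖x - y‖ ^ 4)]
      have hae : ∀ᵐ y ∂(volume.restrict (ball x (a / 2))ᶜ), y ≠ z :=
        ae_restrict_of_ae (by simp [ae_iff])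
      have hmem : ∀ᵐ y ∂(volume.restrict (ball x (a / 2))ᶜ), y ∈ (ball x (a / 2))ᶜ :=
        ae_restrict_mem measurableSet_ball.compl
      have hm2 : Measurable F2 := by
        rw [hF2]; exact Measurable.indicator (by fun_prop) measurableSet_ball.compl
      have hm3 : Measurable F3 := by
        rw [hF3]; exact Measurable.indicator (by fun_prop) measurableSet_ball.compl
      have hm23 : Measurable fun y => F2 y + F3 y := hm2.add hm3
      calc ∫⁻ y in (ball x (a / 2))ᶜ, ENNReal.ofReal (U μ z y / ‖x - y‖ ^ m)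
          ≤ ∫⁻ y in (ball x (a / 2))ᶜ, (F1 y + (F2 y + F3 y)) := by
            refine lintegral_mono_ae ?_
            filter_upwards [hae, hmem] with y h1 h2
            exact hpt y h1 h2
        _ ≤ ∫⁻ y, (F1 y + (F2 y + F3 y)) := setLIntegral_le_lintegral _ _
        _ = (∫⁻ y, F1 y) + ((∫⁻ y, F2 y) + ∫⁻ y, F3 y) := by
            rw [lintegral_add_right _ hm23, lintegral_add_right _ hm3]
        _ ≤ _ := by
            rw [hF1, hF2, hF3, lintegral_indicator measurableSet_ball,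
              lintegral_indicator measurableSet_ball.compl,
              lintegral_indicator measurableSet_ball.compl,
              lintegral_const_mul' _ _ ENNReal.ofReal_ne_top,
              lintegral_const_mul' _ _ ENNReal.ofReal_ne_top,
              lintegral_const_mul' _ _ ENNReal.ofReal_ne_top]
            gcongr
            · exact JJa_lnear (Or.inl rfl) hs z
            · exact JJb_far hs x
            · exact JJb_far hs z
  constructor
  · refine (key 4 (Or.inl rfl)).trans ?_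
    rw [← ENNReal.ofReal_mul (by positivity), ← ENNReal.ofReal_mul (by positivity),
      ← ENNReal.ofReal_mul (by positivity), ← ENNReal.ofReal_add (by positivity) (by positivity),
      ← ENNReal.ofReal_add (by positivity) (by positivity),
      ← ENNReal.ofReal_add (by positivity) (by positivity)]
    refine ENNReal.ofReal_le_ofReal ?_
    rw [haA]
    norm_num
    have e1 : 384 * μ ^ 2 / a ^ 4 * (JJa_c * (a / 2) ^ 2) +
        (24 * μ ^ 2 / (a / 2) ^ 4 * (JJa_c * (a / 2) ^ 2) +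
          (24 * μ ^ 2 * (JJa_c / (a / 2) ^ 2) + 24 * μ ^ 2 * (JJa_c / (a / 2) ^ 2))) =
        384 * (JJa_c * μ ^ 2 / a ^ 2) := by
      field_simp; ring
    rw [e1, mul_assoc (2000 : ℝ), mul_div_assoc (2000 : ℝ)]
    have : 0 ≤ JJa_c * μ ^ 2 / a ^ 2 := by positivity
    nlinarith
  · refine (key 5 (Or.inr rfl)).trans ?_
    rw [← ENNReal.ofReal_mul (by positivity), ← ENNReal.ofReal_mul (by positivity),
      ← ENNReal.ofReal_mul (by positivity), ← ENNReal.ofReal_add (by positivity) (by positivity),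
      ← ENNReal.ofReal_add (by positivity) (by positivity),
      ← ENNReal.ofReal_add (by positivity) (by positivity)]
    refine ENNReal.ofReal_le_ofReal ?_
    rw [← ha, haA]
    norm_num
    have e1 : 384 * μ ^ 2 / a ^ 4 * (JJa_c * (a / 2)) +
        (24 * μ ^ 2 / (a / 2) ^ 5 * (JJa_c * (a / 2) ^ 2) +
          (24 * μ ^ 2 / (a / 2) * (JJa_c / (a / 2) ^ 2) +
            24 * μ ^ 2 / (a / 2) * (JJa_c / (a / 2) ^ 2))) =
        768 * (JJa_c * μ ^ 2 / a ^ 3) := by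
      field_simp; ring
    rw [e1, mul_assoc (2000 : ℝ), mul_div_assoc (2000 : ℝ),
      show a ^ 2 * a = a ^ 3 by ring]
    have : 0 ≤ JJa_c * μ ^ 2 / a ^ 3 := by positivity
    nlinarith

end Pool.Helper4.BT
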