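import Pool.Agent.Helper4.BT.Defs

/-!
# BT-JJa: Riesz type potentials
-/

set_option autoImplicit false

namespace Pool.Helper4.BT
open MeasureTheory Metric Set Laplacian InnerProductSpace

theorem J_mono {m : ℕ} {f g : E → ℝ} (h : ∀ y, f y ≤ g y) (x : E) : J m f x ≤ J m g x := by
  unfold J
  refine lintegral_mono fun y => ENNReal.ofReal_le_ofReal ?_
  exact div_le_div_of_nonneg_right (h y) (by positivity)

theorem J_add_le {m : ℕ} (f g : E → ℝ) (hg : Measurable g) (x : E) :
    J m (fun y => f y + g y) x ≤ J m f x + J m g x := by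
  unfold J
  have hm : Measurable fun y => ENNReal.ofReal (g y / ‖x - y‖ ^ m) := by fun_prop
  rw [← lintegral_add_right _ hm]
  refine lintegral_mono fun y => ?_
  simp only
  rw [add_div]
  exact ENNReal.ofReal_add_le

theorem J_const_mul {m : ℕ} (c : ℝ) (hc : 0 ≤ c) (f : E → ℝ) (x : E) :
    J m (fun y => c * f y) x = ENNReal.ofReal c * J m f x := by
  unfold J
  rw [← lintegral_const_mul' _ _ ENNReal.ofReal_ne_top]
  refine lintegral_congr fun y => ?_
  rw [mul_div_assoc, ENNReal.ofReal_mul hc]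

/-- six times the volume of the unit ball -/
noncomputable def JJa_c : ℝ := 6 * volume.real (ball (0 : E) 1)

theorem JJa_c_pos : 0 < JJa_c := by
  unfold JJa_c
  have : 0 < volume.real (ball (0 : E) 1) := by
    rw [Measure.real, ENNReal.toReal_pos_iff]
    exact ⟨measure_ball_pos _ _ one_pos, measure_ball_lt_top⟩
  positivity

theorem JJa_finrank : Module.finrank ℝ E = 6 := by simp [E]

/-- near integral of the kernel -/
theorem JJa_near {m : ℕ} (hm : m = 4 ∨ m = 5) {s : ℝ} (hs : 0 < s) :
    IntegrableOn (fun w : E => 1 / ‖w‖ ^ m) (ball 0 s) ∧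
      ∫ w in ball (0 : E) s, 1 / ‖w‖ ^ m ≤ JJa_c * s ^ (6 - m) := by
  have hfin := JJa_finrank
  have hi : IntegrableOn (fun w : E => 1 / ‖w‖ ^ m) (ball 0 s) := by
    refine integrableOn_ball_of_norm_le_rpow (C := 1) (α := m) (by rw [hfin]; norm_num)
      (by rw [hfin]; rcases hm with rfl | rfl <;> norm_num) ?_ ?_
    · refine Filter.Eventually.of_forall fun w => ?_
      rw [norm_div, norm_one, norm_pow, norm_norm, one_mul, Real.rpow_neg (norm_nonneg _),
        Real.rpow_natCast, one_div]
    · exact Measurable.aestronglyMeasurable (by fun_prop)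
  refine ⟨hi, ?_⟩
  have h1 : ∫ w in ball (0 : E) s, 1 / ‖w‖ ^ m =
      ∫ w : E, (Iio s).indicator (fun r : ℝ => 1 / r ^ m) ‖w‖ := by
    rw [← integral_indicator measurableSet_ball]
    refine integral_congr_ae (Filter.Eventually.of_forall fun w => ?_)
    simp [indicator]
  rw [h1, integral_fun_norm_addHaar (volume : Measure E), hfin]
  have h2 : ∫ y in Ioi (0 : ℝ), y ^ (6 - 1) • (Iio s).indicator (fun r : ℝ => 1 / r ^ m) y =
      ∫ y in Ioc (0 : ℝ) s, y ^ (5 - m) := by
    have h3 : ∀ y : ℝ, y ^ (6 - 1) • (Iio s).indicator (fun r : ℝ => 1 / r ^ m) y =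
        (Iio s).indicator (fun y : ℝ => y ^ 5 / y ^ m) y := by
      intro y
      by_cases hy : y ∈ Iio s
      · rw [indicator_of_mem hy, indicator_of_mem hy, smul_eq_mul]; ring
      · rw [indicator_of_notMem hy, indicator_of_notMem hy, smul_zero]
    simp_rw [h3]
    rw [setIntegral_indicator measurableSet_Iio, Ioi_inter_Iio, ← integral_Ioc_eq_integral_Ioo]
    refine setIntegral_congr_fun measurableSet_Ioc fun y hy => ?_
    have hy' : y ≠ 0 := hy.1.ne'
    rcases hm with rfl | rfl
    · field_simp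
      norm_num
    · rw [div_self (pow_ne_zero _ hy')]
      simp
  rw [h2, ← intervalIntegral.integral_of_le hs.le, integral_pow]
  unfold JJa_c
  have hv : 0 ≤ volume.real (ball (0 : E) 1) := measureReal_nonneg
  rcases hm with rfl | rfl
  · simp only [nsmul_eq_mul, smul_eq_mul]
    norm_num
    nlinarith [mul_nonneg hv (sq_nonneg s)]
  · simp only [nsmul_eq_mul, smul_eq_mul]
    norm_num
    rw [mul_assoc]

/-- near integral of the kernel, translated, as a lower integral -/
theorem JJa_lnear {m : ℕ} (hm : m = 4 ∨ m = 5) {s : ℝ} (hs : 0 < s) (x : E) :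
    ∫⁻ y in ball x s, ENNReal.ofReal (1 / ‖x - y‖ ^ m) ≤ ENNReal.ofReal (JJa_c * s ^ (6 - m)) := by
  obtain ⟨h1, h2⟩ := JJa_near hm hs
  have e1 : ∫⁻ y in ball x s, ENNReal.ofReal (1 / ‖x - y‖ ^ m) =
      ∫⁻ y, (fun w : E => (ball (0 : E) s).indicator
        (fun w => ENNReal.ofReal (1 / ‖w‖ ^ m)) w) (x - y) := by
    rw [← lintegral_indicator measurableSet_ball]
    refine lintegral_congr fun y => ?_
    by_cases hy : y ∈ ball x s
    · have hy' : x - y ∈ ball (0 : E) s := by
        rw [mem_ball_zero_iff, ← dist_eq_norm, dist_comm]; exact hy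
      simp only
      rw [indicator_of_mem hy, indicator_of_mem hy']
    · have hy' : x - y ∉ ball (0 : E) s := by
        rw [mem_ball_zero_iff, ← dist_eq_norm, dist_comm]; exact hy
      simp only
      rw [indicator_of_notMem hy, indicator_of_notMem hy']
  rw [e1, lintegral_sub_left_eq_self, lintegral_indicator measurableSet_ball,
    ← ofReal_integral_eq_lintegral_ofReal h1 (Filter.Eventually.of_forall fun w => by positivity)]
  exact ENNReal.ofReal_le_ofReal h2

theorem J_split : ∃ C : ℝ, 0 < C ∧ ∀ (m : ℕ) (f : E → ℝ) (x : E) (s M I : ℝ), m = 4 ∨ m = 5 →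
    0 < s → 0 ≤ M → 0 ≤ I → (∀ y, 0 ≤ f y) → (∀ y ∈ ball x s, f y ≤ M) →
    ∫⁻ y, ENNReal.ofReal (f y) ≤ ENNReal.ofReal I →
    J m f x ≤ ENNReal.ofReal (C * M * s ^ (6 - m) + I / s ^ m) := by
  refine ⟨JJa_c, JJa_c_pos, ?_⟩
  intro m f x s M I hm hs hM hI hf hfM hint
  unfold J
  rw [← lintegral_add_compl _ (measurableSet_ball (x := x) (ε := s)),
    ENNReal.ofReal_add (by have := JJa_c_pos; positivity) (by positivity)]
  refine add_le_add ?_ ?_
  · calc ∫⁻ y in ball x s, ENNReal.ofReal (f y / ‖x - y‖ ^ m)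
        ≤ ∫⁻ y in ball x s, ENNReal.ofReal M * ENNReal.ofReal (1 / ‖x - y‖ ^ m) := by
          refine setLIntegral_mono' measurableSet_ball fun y hy => ?_
          rw [← ENNReal.ofReal_mul hM, mul_one_div]
          exact ENNReal.ofReal_le_ofReal (div_le_div_of_nonneg_right (hfM y hy) (by positivity))
      _ = ENNReal.ofReal M * ∫⁻ y in ball x s, ENNReal.ofReal (1 / ‖x - y‖ ^ m) :=
          lintegral_const_mul' _ _ ENNReal.ofReal_ne_top
      _ ≤ ENNReal.ofReal M * ENNReal.ofReal (JJa_c * s ^ (6 - m)) := by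
          gcongr
          exact JJa_lnear hm hs x
      _ = ENNReal.ofReal (JJa_c * M * s ^ (6 - m)) := by
          rw [← ENNReal.ofReal_mul hM]; congr 1; ring
  · calc ∫⁻ y in (ball x s)ᶜ, ENNReal.ofReal (f y / ‖x - y‖ ^ m)
        ≤ ∫⁻ y in (ball x s)ᶜ, ENNReal.ofReal (1 / s ^ m) * ENNReal.ofReal (f y) := by
          refine setLIntegral_mono' measurableSet_ball.compl fun y hy => ?_
          rw [← ENNReal.ofReal_mul (by positivity), one_div_mul_eq_div]
          refine ENNReal.ofReal_le_ofReal ?_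
          have h1 : s ≤ ‖x - y‖ := by
            rw [mem_compl_iff, mem_ball, not_lt, dist_comm, dist_eq_norm] at hy
            exact hy
          exact div_le_div_of_nonneg_left (hf y) (by positivity) (by gcongr)
      _ = ENNReal.ofReal (1 / s ^ m) * ∫⁻ y in (ball x s)ᶜ, ENNReal.ofReal (f y) :=
          lintegral_const_mul' _ _ ENNReal.ofReal_ne_top
      _ ≤ ENNReal.ofReal (1 / s ^ m) * ENNReal.ofReal I := by
          gcongr
          exact (setLIntegral_le_lintegral _ _).trans hint
      _ = ENNReal.ofReal (I / s ^ m) := by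
          rw [← ENNReal.ofReal_mul (by positivity)]; congr 1; ring

theorem J_ball : ∃ C : ℝ, 0 < C ∧ ∀ (m : ℕ) (x y0 : E) (s M : ℝ), m = 4 ∨ m = 5 →
    0 < s → 0 ≤ M →
    J m ((closedBall y0 s).indicator (fun _ => M)) x ≤ ENNReal.ofReal (C * M * s ^ (6 - m)) := by
  obtain ⟨C, hC, h⟩ := J_split
  refine ⟨C + volume.real (ball (0 : E) 1), add_pos_of_pos_of_nonneg hC measureReal_nonneg, ?_⟩
  intro m x y0 s M hm hs hM
  have hvol : volume (closedBall y0 s) = ENNReal.ofReal (s ^ 6 * volume.real (ball (0 : E) 1)) := by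
    rw [Measure.addHaar_closedBall _ _ hs.le, JJa_finrank, ENNReal.ofReal_mul (by positivity),
      Measure.real, ENNReal.ofReal_toReal measure_ball_lt_top.ne]
  have h1 := h m ((closedBall y0 s).indicator (fun _ => M)) x s M
    (M * (s ^ 6 * volume.real (ball (0 : E) 1))) hm hs hM (by positivity)
    (fun y => indicator_nonneg (fun _ _ => hM) y)
    (fun y _ => indicator_le_self' (fun _ _ => hM) y) ?_
  · refine h1.trans (ENNReal.ofReal_le_ofReal (le_of_eq ?_))
    have hs' := hs.ne'
    rcases hm with rfl | rfl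
    · norm_num
      field_simp
    · norm_num
      field_simp
  · have e : ∀ y, ENNReal.ofReal ((closedBall y0 s).indicator (fun _ => M) y) =
        (closedBall y0 s).indicator (fun _ => ENNReal.ofReal M) y := by
      intro y
      by_cases hy : y ∈ closedBall y0 s
      · rw [indicator_of_mem hy, indicator_of_mem hy]
      · rw [indicator_of_notMem hy, indicator_of_notMem hy, ENNReal.ofReal_zero]
    simp_rw [e]
    rw [lintegral_indicator measurableSet_closedBall, lintegral_const,
      Measure.restrict_apply_univ, hvol, ← ENNReal.ofReal_mul hM]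

theorem J_far {m : ℕ} (f : E → ℝ) (hf : ∀ y, 0 ≤ f y) (S : Set E) (hS : MeasurableSet S)
    (x : E) (s I : ℝ) (hs : 0 < s) (hI : 0 ≤ I) (hfar : ∀ y ∈ S, s ≤ ‖x - y‖)
    (hint : ∫⁻ y in S, ENNReal.ofReal (f y) ≤ ENNReal.ofReal I) :
    J m (S.indicator f) x ≤ ENNReal.ofReal (I / s ^ m) := by
  unfold J
  calc ∫⁻ y, ENNReal.ofReal (S.indicator f y / ‖x - y‖ ^ m)
      ≤ ∫⁻ y, S.indicator (fun y => ENNReal.ofReal (1 / s ^ m) * ENNReal.ofReal (f y)) y := by
        refine lintegral_mono fun y => ?_
        by_cases hy : y ∈ S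
        · simp only
          rw [indicator_of_mem hy, indicator_of_mem hy, ← ENNReal.ofReal_mul (by positivity),
            one_div_mul_eq_div]
          refine ENNReal.ofReal_le_ofReal ?_
          have h1 := hfar y hy
          exact div_le_div_of_nonneg_left (hf y) (by positivity) (by gcongr)
        · simp only
          rw [indicator_of_notMem hy, indicator_of_notMem hy]
          simp
    _ = ENNReal.ofReal (1 / s ^ m) * ∫⁻ y in S, ENNReal.ofReal (f y) := by
        rw [lintegral_indicator hS, lintegral_const_mul' _ _ ENNReal.ofReal_ne_top]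
    _ ≤ ENNReal.ofReal (1 / s ^ m) * ENNReal.ofReal I := by gcongr
    _ = ENNReal.ofReal (I / s ^ m) := by
        rw [← ENNReal.ofReal_mul (by positivity)]; congr 1; ring

end Pool.Helper4.BT
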