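import Pool.Agent.Helper7.BU.Polar

/-!
# Horizontal lines: coordinates for the torus
-/

set_option autoImplicit false
set_option maxHeartbeats 400000

noncomputable section

open scoped ComplexConjugate Topology
open Complex Filter MeasureTheory intervalIntegral
open Pool.Agent.Helper7.BU (LS L2 clamp dz db LS_continuous fderiv_eq hd_re hd_im hd_conj exists_prim
  dz_continuous db_continuous L2_le_LS L2_zero_nonneg L2_clamp clamp_continuous)

namespace Pool.Agent.Helper7.BT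

/-- the point at distance `r` below the real axis, with abscissa `θ` -/
def cz (r θ : ℝ) : ℂ := θ - r * I

/-- downward derivative -/
def AA (f : ℂ → ℂ) (r θ : ℝ) : ℂ := fderiv ℝ f (cz r θ) (-I)

/-- horizontal derivative -/
def TT (f : ℂ → ℂ) (r θ : ℝ) : ℂ := fderiv ℝ f (cz r θ) 1

/-- the integrand -/
def LP (f : ℂ → ℂ) (r θ : ℝ) : ℝ := LS (dz f (cz r θ)) (db f (cz r θ))

theorem LS_flat {f : ℂ → ℂ} {r θ : ℝ} {u : ℂ} (hu : ‖u‖ = 1)
    (h : (TT f r θ * conj u).re = 0 ∨ (AA f r θ * conj u).im = 0) :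
    L2 (AA f r θ * conj u).re (TT f r θ * conj u).im ≤ LP f r θ := by
  have hI : I * I = -1 := I_mul_I
  have hA : AA f r θ = -fderiv ℝ f (cz r θ) I := by
    unfold AA
    rw [map_neg]
  have h1 : AA f r θ * conj u - I * (TT f r θ * conj u) =
      2 * (-I * dz f (cz r θ) * conj u) := by
    rw [hA]
    unfold TT dz
    linear_combination (-fderiv ℝ f (cz r θ) I * conj u) * hI
  have h2 : AA f r θ * conj u + I * (TT f r θ * conj u) =
      2 * (I * db f (cz r θ) * conj u) := by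
    rw [hA]
    unfold TT db
    linear_combination (-fderiv ℝ f (cz r θ) I * conj u) * hI
  set a := AA f r θ * conj u
  set t := TT f r θ * conj u
  have hcu : ‖conj u‖ = 1 := by rw [RCLike.norm_conj, hu]
  have n1 : ‖a - I * t‖ ^ 2 = 4 * ‖dz f (cz r θ)‖ ^ 2 := by
    rw [h1, norm_mul, norm_mul, norm_mul, hcu, norm_neg, norm_I]
    norm_num
    ring
  have n2 : ‖a + I * t‖ ^ 2 = 4 * ‖db f (cz r θ)‖ ^ 2 := by
    rw [h2, norm_mul, norm_mul, norm_mul, hcu, norm_I]
    norm_num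
    ring
  have m1 : ‖a - I * t‖ ^ 2 = (a.re + t.im) ^ 2 + (a.im - t.re) ^ 2 := by
    rw [← Complex.normSq_eq_norm_sq, normSq_apply]
    simp only [sub_re, sub_im, mul_re, mul_im, I_re, I_im]
    ring
  have m2 : ‖a + I * t‖ ^ 2 = (a.re - t.im) ^ 2 + (a.im + t.re) ^ 2 := by
    rw [← Complex.normSq_eq_norm_sq, normSq_apply]
    simp only [add_re, add_im, mul_re, mul_im, I_re, I_im]
    ring
  rcases h with h | h
  · refine L2_le_LS (q := a.im) ?_ ?_
    · rw [← n1, m1, h]; ring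
    · rw [← n2, m2, h]; ring
  · refine L2_le_LS (q := t.re) ?_ ?_
    · rw [← n1, m1, h]; ring
    · rw [← n2, m2, h]; ring

theorem cz_continuous : Continuous (fun p : ℝ × ℝ => cz p.1 p.2) := by
  unfold cz; fun_prop

theorem hasDerivAt_cz_angle (r θ : ℝ) : HasDerivAt (fun s : ℝ => cz r s) 1 θ := by
  unfold cz
  simpa using (Complex.ofRealCLM.hasDerivAt (x := θ)).sub_const ((r : ℂ) * I)

theorem hasDerivAt_cz_rad (r θ : ℝ) : HasDerivAt (fun s : ℝ => cz s θ) (-I) r := by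
  unfold cz
  simpa using ((Complex.ofRealCLM.hasDerivAt (x := r)).mul_const I).const_sub (θ : ℂ)

section

variable {f : ℂ → ℂ} (hf : ContDiff ℝ 1 f)

include hf

theorem hasDerivAt_angle (r θ : ℝ) :
    HasDerivAt (fun s : ℝ => f (cz r s)) (TT f r θ) θ := by
  have h1 : HasFDerivAt f (fderiv ℝ f (cz r θ)) (cz r θ) :=
    (hf.differentiable one_ne_zero _).hasFDerivAt
  exact h1.comp_hasDerivAt θ (hasDerivAt_cz_angle r θ)

theorem hasDerivAt_rad (r θ : ℝ) :
    HasDerivAt (fun s : ℝ => f (cz s θ)) (AA f r θ) r := by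
  have h1 : HasFDerivAt f (fderiv ℝ f (cz r θ)) (cz r θ) :=
    (hf.differentiable one_ne_zero _).hasFDerivAt
  exact h1.comp_hasDerivAt r (hasDerivAt_cz_rad r θ)

theorem AA_continuous : Continuous (fun p : ℝ × ℝ => AA f p.1 p.2) := by
  unfold AA
  exact ((hf.continuous_fderiv one_ne_zero).comp cz_continuous).clm_apply (by fun_prop)

theorem TT_continuous : Continuous (fun p : ℝ × ℝ => TT f p.1 p.2) := by
  unfold TT
  exact ((hf.continuous_fderiv one_ne_zero).comp cz_continuous).clm_apply (by fun_prop)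

theorem LP_continuous : Continuous (fun p : ℝ × ℝ => LP f p.1 p.2) := by
  unfold LP
  exact LS_continuous.comp (((dz_continuous hf).comp cz_continuous).prodMk
    ((db_continuous hf).comp cz_continuous))

theorem f_cz_continuous : Continuous (fun p : ℝ × ℝ => f (cz p.1 p.2)) :=
  hf.continuous.comp cz_continuous

end

/-- the points of a horizontal line are mapped into a line -/
def Col (f : ℂ → ℂ) (s : ℝ) : Prop := ∀ θ₁ θ₂ θ₃ : ℝ,
  ((f (cz s θ₁) - f (cz s θ₃)) * conj (f (cz s θ₂) - f (cz s θ₃))).im = 0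

/-- the mean over a line -/
def PP (f : ℂ → ℂ) (r : ℝ) : ℝ := ∫ θ in (0 : ℝ)..1, LP f r θ

/-- horizontal periodicity -/
def Per (f : ℂ → ℂ) : Prop := ∀ z, f (z + 1) = f z

theorem f_one {f : ℂ → ℂ} (hp : Per f) (r : ℝ) : f (cz r 1) = f (cz r 0) := by
  have h := hp (cz r 0)
  have e : cz r 0 + 1 = cz r 1 := by
    unfold cz
    push_cast
    ring
  rw [← h, e]

section

variable {f : ℂ → ℂ} (hf : ContDiff ℝ 1 f)

include hf

omit hf in
theorem LP_nonneg_of_TT {r θ : ℝ} (h : TT f r θ = 0) : 0 ≤ LP f r θ := by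
  have h1 := LS_flat (f := f) (r := r) (θ := θ) (u := 1) norm_one (by left; simp [h])
  refine le_trans ?_ h1
  rw [h]
  simpa using L2_zero_nonneg _

theorem TT_eq_zero_of_point {r : ℝ} (hp : ∀ θ₁ θ₂, f (cz r θ₁) = f (cz r θ₂)) (θ : ℝ) :
    TT f r θ = 0 := by
  have h1 := hasDerivAt_angle hf r θ
  have h2 : (fun s : ℝ => f (cz r s)) = fun _ => f (cz r θ) := by
    funext s; exact hp s θ
  rw [h2] at h1
  exact h1.unique (hasDerivAt_const θ (f (cz r θ)))

theorem PP_nonneg_of_point {r : ℝ} (hp : ∀ θ₁ θ₂, f (cz r θ₁) = f (cz r θ₂)) :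
    0 ≤ PP f r := by
  unfold PP
  refine integral_nonneg (by norm_num) fun θ _ => ?_
  exact LP_nonneg_of_TT (TT_eq_zero_of_point hf hp θ)

theorem line_him_deriv {r : ℝ} {v p : ℂ}
    (him : ∀ θ, ((f (cz r θ) - p) * conj v).im = 0) (θ : ℝ) :
    (TT f r θ * conj v).im = 0 := by
  have h0 : HasDerivAt (fun s => (f (cz r s) - p) * conj v) (TT f r θ * conj v) θ :=
    ((hasDerivAt_angle hf r θ).sub_const _).mul_const _
  have h1 := hd_im h0
  have h2 : (fun s => ((f (cz r s) - p) * conj v).im) = fun _ => (0 : ℝ) := by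
    funext s
    exact him s
  rw [h2] at h1
  exact h1.unique (hasDerivAt_const θ (0 : ℝ))

theorem line_pointwise {r : ℝ} {v p : ℂ} (hv : ‖v‖ = 1)
    (him : ∀ θ, ((f (cz r θ) - p) * conj v).im = 0) (θ : ℝ) :
    clamp (-(AA f r θ * conj v).im) * (TT f r θ * conj v).re ≤ LP f r θ := by
  have hT := line_him_deriv hf him θ
  have hu : ‖-(I * v)‖ = 1 := by rw [norm_neg, norm_mul, norm_I, hv, one_mul]
  have hcu : conj (-(I * v)) = I * conj v := by rw [map_neg, map_mul, conj_I]; ring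
  have k1 : (TT f r θ * conj (-(I * v))).re = 0 := by
    rw [hcu, show TT f r θ * (I * conj v) = I * (TT f r θ * conj v) by ring, I_mul_re, hT,
      neg_zero]
  have k2 : (TT f r θ * conj (-(I * v))).im = (TT f r θ * conj v).re := by
    rw [hcu, show TT f r θ * (I * conj v) = I * (TT f r θ * conj v) by ring, I_mul_im]
  have k3 : (AA f r θ * conj (-(I * v))).re = -(AA f r θ * conj v).im := by
    rw [hcu, show AA f r θ * (I * conj v) = I * (AA f r θ * conj v) by ring, I_mul_re]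
  have h1 := LS_flat hu (Or.inl k1)
  rw [k2, k3] at h1
  exact (L2_clamp (-(AA f r θ * conj v).im) (TT f r θ * conj v).re).trans h1

theorem TT_cont (r : ℝ) : Continuous (fun θ => TT f r θ) := by
  have h2 : Continuous (fun θ : ℝ => ((r, θ) : ℝ × ℝ)) :=
    Continuous.prodMk continuous_const continuous_id
  have h3 := (TT_continuous hf).comp h2
  exact h3

theorem LP_cont (r : ℝ) : Continuous (fun θ => LP f r θ) := by
  have h2 : Continuous (fun θ : ℝ => ((r, θ) : ℝ × ℝ)) :=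
    Continuous.prodMk continuous_const continuous_id
  have h3 := (LP_continuous hf).comp h2
  exact h3

theorem f_cont (r : ℝ) : Continuous (fun θ => f (cz r θ)) := by
  have h2 : Continuous (fun θ : ℝ => ((r, θ) : ℝ × ℝ)) :=
    Continuous.prodMk continuous_const continuous_id
  have h3 := (f_cz_continuous hf).comp h2
  exact h3

theorem line_rad {r : ℝ} (hcol : ∀ᶠ s in 𝓝 r, Col f s) (θ θ₁ θ₂ : ℝ) :
    ((AA f r θ - AA f r θ₂) * conj (f (cz r θ₁) - f (cz r θ₂)) +
      (f (cz r θ) - f (cz r θ₂)) * conj (AA f r θ₁ - AA f r θ₂)).im = 0 := by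
  have h2 : HasDerivAt (fun s => f (cz s θ) - f (cz s θ₂)) (AA f r θ - AA f r θ₂) r :=
    (hasDerivAt_rad hf r θ).sub (hasDerivAt_rad hf r θ₂)
  have h3 : HasDerivAt (fun s => f (cz s θ₁) - f (cz s θ₂)) (AA f r θ₁ - AA f r θ₂) r :=
    (hasDerivAt_rad hf r θ₁).sub (hasDerivAt_rad hf r θ₂)
  have h1 : HasDerivAt (fun s => (f (cz s θ) - f (cz s θ₂)) * conj (f (cz s θ₁) - f (cz s θ₂)))
      ((AA f r θ - AA f r θ₂) * conj (f (cz r θ₁) - f (cz r θ₂)) +
        (f (cz r θ) - f (cz r θ₂)) * conj (AA f r θ₁ - AA f r θ₂)) r := h2.mul (hd_conj h3)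
  have h4 : (fun s => ((f (cz s θ) - f (cz s θ₂)) *
      conj (f (cz s θ₁) - f (cz s θ₂))).im) =ᶠ[𝓝 r] fun _ => (0 : ℝ) := by
    filter_upwards [hcol] with s hs
    exact hs θ θ₁ θ₂
  exact ((hd_im h1).congr_of_eventuallyEq h4.symm).unique (hasDerivAt_const r (0 : ℝ))

theorem line_aux (hper : Per f) {r : ℝ} {v p : ℂ} (hv : ‖v‖ = 1)
    (him : ∀ θ, ((f (cz r θ) - p) * conj v).im = 0) {α c : ℝ}
    (hA : ∀ θ, (AA f r θ * conj v).im = α + c * ((f (cz r θ) - p) * conj v).re) :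
    0 ≤ PP f r := by
  obtain ⟨G, hG⟩ : ∃ G : ℝ → ℝ, ∀ θ, G θ = ((f (cz r θ) - p) * conj v).re := ⟨_, fun _ => rfl⟩
  have hGd : ∀ θ, HasDerivAt G (TT f r θ * conj v).re θ := by
    intro θ
    have h0 : HasDerivAt (fun s => (f (cz r s) - p) * conj v) (TT f r θ * conj v) θ :=
      ((hasDerivAt_angle hf r θ).sub_const _).mul_const _
    have h1 := hd_re h0
    have h2 : G = fun s => ((f (cz r s) - p) * conj v).re := funext hG
    rw [h2]
    exact h1
  have hTc := TT_cont hf r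
  have hLc := LP_cont hf r
  have hGc : Continuous G := continuous_iff_continuousAt.2 fun θ => (hGd θ).continuousAt
  have hclc : Continuous (fun s => clamp (-(α + c * s))) := clamp_continuous.comp (by fun_prop)
  obtain ⟨Ψ, hΨd⟩ := exists_prim hclc
  have hic : Continuous fun θ => clamp (-(α + c * G θ)) * (TT f r θ * conj v).re := by
    have h1 : Continuous fun θ => clamp (-(α + c * G θ)) := hclc.comp hGc
    have h2 : Continuous fun θ => (TT f r θ * conj v).re :=
      continuous_re.comp (hTc.mul continuous_const)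
    exact h1.mul h2
  have hint : ∫ θ in (0 : ℝ)..1, clamp (-(α + c * G θ)) * (TT f r θ * conj v).re =
      Ψ (G 1) - Ψ (G 0) :=
    integral_eq_sub_of_hasDerivAt (f := fun θ => Ψ (G θ))
      (fun θ _ => (hΨd (G θ)).comp θ (hGd θ)) (hic.intervalIntegrable _ _)
  have hper' : G 1 = G 0 := by rw [hG, hG, f_one hper]
  rw [hper', sub_self] at hint
  unfold PP
  refine le_trans (le_of_eq hint.symm) ?_
  refine integral_mono_on (by norm_num) (hic.intervalIntegrable _ _)
    (hLc.intervalIntegrable _ _) fun θ _ => ?_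
  have h2 := line_pointwise hf hv him θ
  rw [hA θ, ← hG θ] at h2
  exact h2

/-- lines mapped into lines -/
theorem PP_nonneg_of_line (hper : Per f) {r : ℝ} (hcol : ∀ᶠ s in 𝓝 r, Col f s) : 0 ≤ PP f r := by
  by_cases hp : ∀ θ₁ θ₂, f (cz r θ₁) = f (cz r θ₂)
  · exact PP_nonneg_of_point hf hp
  push Not at hp
  obtain ⟨θ₁, θ₂, h12⟩ := hp
  have hc0 : Col f r := hcol.self_of_nhds
  have hE0 : f (cz r θ₁) - f (cz r θ₂) ≠ 0 := sub_ne_zero.2 h12
  obtain ⟨E, hE⟩ : ∃ E : ℂ, E = f (cz r θ₁) - f (cz r θ₂) := ⟨_, rfl⟩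
  rw [← hE] at hE0
  have hnE : 0 < ‖E‖ := norm_pos_iff.2 hE0
  have hnE' : (‖E‖ : ℂ) ≠ 0 := by exact_mod_cast hnE.ne'
  obtain ⟨v, hv⟩ : ∃ v : ℂ, E = ‖E‖ * v := ⟨E / ‖E‖, by field_simp⟩
  have hv1 : ‖v‖ = 1 := by
    have h1 := congrArg (fun z => ‖z‖) hv
    simp only [norm_mul, norm_real, norm_norm] at h1
    have h2 : ‖E‖ * (‖v‖ - 1) = 0 := by linarith
    have h3 := (mul_eq_zero.1 h2).resolve_left hnE.ne'
    linarith
  have hEc : (‖E‖ : ℂ) * conj v = conj E := by
    conv_rhs => rw [hv]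
    rw [map_mul, conj_ofReal]
  have hvv : conj v * v = 1 := by
    rw [mul_comm, mul_conj, normSq_eq_norm_sq, hv1]; norm_num
  have him : ∀ θ, ((f (cz r θ) - f (cz r θ₂)) * conj v).im = 0 := by
    intro θ
    have h1 := hc0 θ θ₁ θ₂
    rw [← hE, ← hEc, mul_left_comm, im_ofReal_mul] at h1
    exact (mul_eq_zero.1 h1).resolve_left hnE.ne'
  refine line_aux hf hper hv1 him (α := (AA f r θ₂ * conj v).im)
    (c := -(v * conj (AA f r θ₁ - AA f r θ₂)).im / ‖E‖) fun θ => ?_
  have h5 := line_rad hf hcol θ θ₁ θ₂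
  have hGv : f (cz r θ) - f (cz r θ₂) = (((f (cz r θ) - f (cz r θ₂)) * conj v).re : ℂ) * v := by
    have h1 : (f (cz r θ) - f (cz r θ₂)) * conj v =
        (((f (cz r θ) - f (cz r θ₂)) * conj v).re : ℂ) := by
      apply Complex.ext
      · simp
      · rw [him θ]; simp
    rw [← h1, mul_assoc, hvv, mul_one]
  generalize ((f (cz r θ) - f (cz r θ₂)) * conj v).re = g at hGv ⊢
  rw [hGv, ← hE, ← hEc] at h5
  have e1 : (AA f r θ - AA f r θ₂) * (‖E‖ * conj v) =
      (‖E‖ : ℂ) * (AA f r θ * conj v - AA f r θ₂ * conj v) := by ring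
  have e2 : (g : ℂ) * v * conj (AA f r θ₁ - AA f r θ₂) =
      (g : ℂ) * (v * conj (AA f r θ₁ - AA f r θ₂)) := by ring
  rw [e1, e2, add_im, im_ofReal_mul, im_ofReal_mul, sub_im] at h5
  rw [div_mul_eq_mul_div, ← sub_eq_iff_eq_add', eq_div_iff hnE.ne']
  linarith

end

end Pool.Agent.Helper7.BT
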