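import Pool.Agent.Helper7.BT.Flat
import Pool.Agent.Helper7.BU.Round

/-!
# Horizontal lines mapped into circles
-/

set_option autoImplicit false
set_option maxHeartbeats 400000

noncomputable section

open scoped ComplexConjugate Topology
open Complex Filter MeasureTheory intervalIntegral
open Pool.Agent.Helper7.BU (LS L2 clamp hd_re hd_im hd_conj exists_prim normSq_deriv L2_cases
  L2_ge1 L2_ge2 L2_ge3)

namespace Pool.Agent.Helper7.BT

/-- the line at height `-s` is mapped into a circle about `c` -/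
def Round (f : ℂ → ℂ) (c : ℂ) (s : ℝ) : Prop :=
  ∀ θ : ℝ, ‖f (cz s θ) - c‖ = ‖f (cz s 0) - c‖

/-- distance from `c` -/
def Rd (f : ℂ → ℂ) (c : ℂ) (r : ℝ) : ℝ := ‖f (cz r 0) - c‖

/-- angular speed of the image -/
def om (f : ℂ → ℂ) (c : ℂ) (r θ : ℝ) : ℝ :=
  (TT f r θ * conj (f (cz r θ) - c)).im / Rd f c r ^ 2

/-- total angle -/
def wn (f : ℂ → ℂ) (c : ℂ) (r : ℝ) : ℝ := ∫ θ in (0 : ℝ)..1, om f c r θ

section

variable {f : ℂ → ℂ} (hf : ContDiff ℝ 1 f) {c : ℂ}

include hf

theorem om_cont (c : ℂ) (r : ℝ) : Continuous (fun θ => om f c r θ) := by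
  unfold om
  have h1 := TT_cont hf r
  have h2 := f_cont hf r
  exact (continuous_im.comp (h1.mul
    (continuous_conj.comp (h2.sub continuous_const)))).div_const _

theorem round_re {r : ℝ} (h : Round f c r) (θ : ℝ) :
    (TT f r θ * conj (f (cz r θ) - c)).re = 0 := by
  have h0 : HasDerivAt (fun s => f (cz r s) - c) (TT f r θ) θ :=
    (hasDerivAt_angle hf r θ).sub_const _
  have h1 := normSq_deriv h0
  have h2 : (fun s => ‖f (cz r s) - c‖ ^ 2) = fun _ => ‖f (cz r 0) - c‖ ^ 2 := by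
    funext s; rw [h s]
  rw [h2] at h1
  have h3 := h1.unique (hasDerivAt_const θ _)
  linarith

theorem wn_int (hper : Per f) {r : ℝ} (h : Round f c r) (hR : 0 < Rd f c r) :
    ∃ k : ℤ, wn f c r = k * (2 * Real.pi) := by
  obtain ⟨Ω, hΩ⟩ := exists_prim (om_cont hf c r)
  have hg0 : ∀ θ, f (cz r θ) - c ≠ 0 := by
    intro θ
    rw [← norm_pos_iff, h θ]
    exact hR
  have hode : ∀ θ, TT f r θ = I * om f c r θ * (f (cz r θ) - c) := by
    intro θ
    have h1 : conj (f (cz r θ) - c) ≠ 0 := (map_ne_zero _).2 (hg0 θ)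
    apply mul_right_cancel₀ h1
    have h2 : (f (cz r θ) - c) * conj (f (cz r θ) - c) = (Rd f c r : ℂ) ^ 2 := by
      rw [mul_conj, normSq_eq_norm_sq, h θ]
      unfold Rd
      push_cast; rfl
    rw [mul_assoc (I * (om f c r θ : ℂ)), h2]
    have hR' : (Rd f c r : ℂ) ≠ 0 := by exact_mod_cast hR.ne'
    have h3 : (TT f r θ * conj (f (cz r θ) - c)) =
        I * ((TT f r θ * conj (f (cz r θ) - c)).im : ℂ) := by
      apply Complex.ext
      · rw [round_re hf h θ]
        simp
      · simp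
    rw [h3]
    unfold om
    push_cast
    field_simp
  have hd : ∀ θ, HasDerivAt (fun s : ℝ => (f (cz r s) - c) * exp (-(I * Ω s))) 0 θ := by
    intro θ
    have h1 : HasDerivAt (fun s => f (cz r s) - c) (TT f r θ) θ :=
      (hasDerivAt_angle hf r θ).sub_const _
    have h2 : HasDerivAt (fun s : ℝ => -(I * (Ω s : ℂ))) (-(I * (om f c r θ : ℂ))) θ :=
      ((hΩ θ).ofReal_comp.const_mul I).neg
    have h3 := h1.mul h2.cexp
    refine h3.congr_deriv ?_
    rw [hode θ]
    ring
  have hconst : (f (cz r 1) - c) * exp (-(I * Ω 1)) =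
      (f (cz r 0) - c) * exp (-(I * Ω 0)) :=
    is_const_of_deriv_eq_zero (fun θ => (hd θ).differentiableAt) (fun θ => (hd θ).deriv) _ _
  rw [f_one hper] at hconst
  have h1 := mul_left_cancel₀ (hg0 0) hconst
  have h2 : exp (I * (Ω 1 - Ω 0)) = 1 := by
    have e : I * ((Ω 1 : ℂ) - Ω 0) = -(I * Ω 0) - (-(I * Ω 1)) := by ring
    rw [e, exp_sub, h1, div_self (exp_ne_zero _)]
  obtain ⟨k, hk⟩ := exp_eq_one_iff.1 h2
  refine ⟨k, ?_⟩
  have h3 : Ω 1 - Ω 0 = k * (2 * Real.pi) := by
    have h4 : I * ((Ω 1 : ℂ) - Ω 0) = I * ((k : ℂ) * (2 * Real.pi)) := by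
      rw [hk]; ring
    have h5 := mul_left_cancel₀ I_ne_zero h4
    exact_mod_cast h5
  have h4 : ∫ θ in (0 : ℝ)..1, om f c r θ = Ω 1 - Ω 0 :=
    integral_eq_sub_of_hasDerivAt (fun θ _ => hΩ θ) ((om_cont hf c r).intervalIntegrable _ _)
  unfold wn
  rw [h4, h3]

omit hf in
theorem abs_wn_le {r : ℝ} (h : Round f c r) (hR : 0 < Rd f c r) {C : ℝ}
    (hC : ∀ θ ∈ Set.Icc (0 : ℝ) 1, ‖TT f r θ‖ ≤ C) :
    |wn f c r| * Rd f c r ≤ C := by
  have h1 : ∀ θ ∈ Set.uIoc (0 : ℝ) 1, ‖om f c r θ‖ ≤ C / Rd f c r := by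
    intro θ hθ
    rw [Set.uIoc_of_le (by norm_num)] at hθ
    unfold om
    rw [Real.norm_eq_abs, abs_div, abs_of_nonneg (by positivity : 0 ≤ Rd f c r ^ 2),
      div_le_div_iff₀ (by positivity) hR]
    have h2 : |(TT f r θ * conj (f (cz r θ) - c)).im| ≤ ‖TT f r θ‖ * Rd f c r := by
      refine (abs_im_le_norm _).trans (le_of_eq ?_)
      rw [norm_mul, RCLike.norm_conj, h θ]
      rfl
    have h3 := hC θ ⟨hθ.1.le, hθ.2⟩
    have h4 : ‖TT f r θ‖ * Rd f c r ≤ C * Rd f c r := by gcongr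
    nlinarith
  have h2 := norm_integral_le_of_norm_le_const h1
  rw [Real.norm_eq_abs] at h2
  have h3 : |(1 : ℝ) - 0| = 1 := by norm_num
  rw [h3, mul_one] at h2
  unfold wn
  calc _ ≤ C / Rd f c r * Rd f c r := mul_le_mul_of_nonneg_right h2 hR.le
    _ = C := by field_simp

/-- the vertical derivative of the distance -/
def rho (f : ℂ → ℂ) (c : ℂ) (r : ℝ) : ℝ := (AA f r 0 * conj (f (cz r 0) - c)).re / Rd f c r

theorem hasDerivAt_Rd {r : ℝ} (hR : 0 < Rd f c r) : HasDerivAt (Rd f c) (rho f c r) r := by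
  have h0 : HasDerivAt (fun s => f (cz s 0) - c) (AA f r 0) r := (hasDerivAt_rad hf r 0).sub_const _
  have h1 := normSq_deriv h0
  have h2 : Rd f c = fun s => Real.sqrt (‖f (cz s 0) - c‖ ^ 2) := by
    funext s
    rw [Real.sqrt_sq (norm_nonneg _)]
    rfl
  have h3 := h1.sqrt (by
    have : ‖f (cz r 0) - c‖ = Rd f c r := rfl
    rw [this]
    positivity)
  rw [h2]
  refine h3.congr_deriv ?_
  have h4 : Real.sqrt (‖f (cz r 0) - c‖ ^ 2) = Rd f c r := by
    rw [Real.sqrt_sq (norm_nonneg _)]; rfl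
  rw [h4]
  unfold rho
  field_simp

/-- the inequality on a line -/
theorem PP_round {r : ℝ} (h : ∀ᶠ s in 𝓝 r, Round f c s) (hR : 0 < Rd f c r) :
    L2 (rho f c r) (wn f c r * Rd f c r) ≤ PP f r := by
  have h0 : Round f c r := h.self_of_nhds
  -- the vertical derivative does not depend on the abscissa
  have hrad : ∀ θ, (AA f r θ * conj (f (cz r θ) - c)).re / Rd f c r = rho f c r := by
    intro θ
    have h1 := normSq_deriv ((hasDerivAt_rad hf r θ).sub_const c)
    have h2 := normSq_deriv ((hasDerivAt_rad hf r 0).sub_const c)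
    have h3 : (fun s => ‖f (cz s θ) - c‖ ^ 2) =ᶠ[𝓝 r] fun s => ‖f (cz s 0) - c‖ ^ 2 := by
      filter_upwards [h] with s hs
      rw [hs θ]
    have h4 := (h1.congr_of_eventuallyEq h3.symm).unique h2
    unfold rho
    congr 1
    linarith
  have hpt : ∀ θ, L2 (rho f c r) (Rd f c r * om f c r θ) ≤ LP f r θ := by
    intro θ
    have hu : ‖(f (cz r θ) - c) / Rd f c r‖ = 1 := by
      rw [norm_div, norm_real, Real.norm_of_nonneg hR.le, h0 θ]
      exact div_self hR.ne'
    have hcu : conj ((f (cz r θ) - c) / Rd f c r) = conj (f (cz r θ) - c) / Rd f c r := by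
      rw [map_div₀, conj_ofReal]
    have k1 : (TT f r θ * conj ((f (cz r θ) - c) / Rd f c r)).re = 0 := by
      rw [hcu, ← mul_div_assoc, div_ofReal_re, round_re hf h0 θ, zero_div]
    have k2 : (TT f r θ * conj ((f (cz r θ) - c) / Rd f c r)).im = Rd f c r * om f c r θ := by
      rw [hcu, ← mul_div_assoc, div_ofReal_im]
      unfold om
      field_simp
    have k3 : (AA f r θ * conj ((f (cz r θ) - c) / Rd f c r)).re = rho f c r := by
      rw [hcu, ← mul_div_assoc, div_ofReal_re]
      exact hrad θ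
    have h1 := LS_flat hu (Or.inl k1)
    rwa [k2, k3] at h1
  have hoc := om_cont hf c r
  have hLc := LP_cont hf r
  have hint : ∫ θ in (0 : ℝ)..1, om f c r θ = wn f c r := rfl
  have key : ∀ p q : ℝ, (∀ b, p * b + q ≤ L2 (rho f c r) b) →
      p * (wn f c r * Rd f c r) + q ≤ PP f r := by
    intro p q hpq
    have h1 : ∫ θ in (0 : ℝ)..1, (p * (Rd f c r * om f c r θ) + q) ≤ PP f r := by
      unfold PP
      refine integral_mono_on (by norm_num) ?_ (hLc.intervalIntegrable _ _) fun θ _ =>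
        (hpq _).trans (hpt θ)
      exact ((continuous_const.mul (continuous_const.mul hoc)).add
        continuous_const).intervalIntegrable _ _
    refine le_trans (le_of_eq ?_) h1
    have h2 : ∀ θ, p * (Rd f c r * om f c r θ) + q = (p * Rd f c r) * om f c r θ + q := by
      intro θ; ring
    simp_rw [h2]
    have i1 : IntervalIntegrable (fun θ => p * Rd f c r * om f c r θ) volume 0 1 :=
      (continuous_const.mul hoc).intervalIntegrable _ _
    have i2 : IntervalIntegrable (fun _ : ℝ => q) volume 0 1 :=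
      continuous_const.intervalIntegrable _ _
    rw [intervalIntegral.integral_add i1 i2, intervalIntegral.integral_const_mul, hint,
      intervalIntegral.integral_const, smul_eq_mul]
    ring
  rcases L2_cases (rho f c r) (wn f c r * Rd f c r) with ⟨h1, h2⟩ | h2 | h2
  · rw [h2]
    have := key (rho f c r) 0 (fun b => by rw [add_zero]; exact L2_ge1 h1)
    rwa [add_zero] at this
  · rw [h2]
    have := key 1 (rho f c r - 1) (fun b => by have := L2_ge2 (rho f c r) b; linarith)
    refine le_trans (le_of_eq ?_) this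
    ring
  · rw [h2]
    have := key (-1) (-(rho f c r) - 1) (fun b => by have := L2_ge3 (rho f c r) b; linarith)
    refine le_trans (le_of_eq ?_) this
    ring

theorem Rd_cont (c : ℂ) : Continuous (Rd f c) := by
  unfold Rd
  have h2 : Continuous (fun s : ℝ => ((s, 0) : ℝ × ℝ)) :=
    Continuous.prodMk continuous_id continuous_const
  have h3 := (f_cz_continuous hf).comp h2
  exact continuous_norm.comp (h3.sub continuous_const)

/-- the total angle is locally constant -/
theorem wn_const (hper : Per f) {r : ℝ} (h0 : Round f c r) (hR : 0 < Rd f c r) :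
    ∀ᶠ s in 𝓝 r, Round f c s → wn f c s = wn f c r := by
  set δ : ℝ := Rd f c r ^ 2 / 4 with hδ
  have hδ0 : 0 < δ := by positivity
  set F : ℝ → ℝ → ℝ := fun s θ =>
    (TT f s θ * conj (f (cz s θ) - c)).im / max (‖f (cz s θ) - c‖ ^ 2) δ with hF
  have hFc : Continuous (Function.uncurry F) := by
    have h1 := TT_continuous hf
    have h2 := f_cz_continuous hf
    have e : Function.uncurry F = fun p : ℝ × ℝ =>
      (TT f p.1 p.2 * conj (f (cz p.1 p.2) - c)).im /
        max (‖f (cz p.1 p.2) - c‖ ^ 2) δ := by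
      funext p; rfl
    rw [e]
    have h3 : Continuous fun p : ℝ × ℝ => f (cz p.1 p.2) - c := h2.sub continuous_const
    refine Continuous.div (continuous_im.comp (h1.mul (continuous_conj.comp h3)))
      (((continuous_norm.comp h3).pow 2).max continuous_const) fun p => ?_
    have : 0 < max (‖f (cz p.1 p.2) - c‖ ^ 2) δ := lt_of_lt_of_le hδ0 (le_max_right _ _)
    exact this.ne'
  have hWc : Continuous fun s => ∫ θ in (0 : ℝ)..1, F s θ :=
    continuous_parametric_intervalIntegral_of_continuous' hFc _ _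
  have hW : ∀ s, Round f c s → δ ≤ Rd f c s ^ 2 →
      ∫ θ in (0 : ℝ)..1, F s θ = wn f c s := by
    intro s hs hsδ
    have h1 : ∀ θ, F s θ = om f c s θ := by
      intro θ
      simp only [hF]
      unfold om
      rw [hs θ]
      have h2 : ‖f (cz s 0) - c‖ = Rd f c s := rfl
      rw [h2, max_eq_left hsδ]
    simp_rw [h1]
    rfl
  have hpi := Real.pi_pos
  have e1 : ∀ᶠ s in 𝓝 r, |(∫ θ in (0 : ℝ)..1, F s θ) -
      ∫ θ in (0 : ℝ)..1, F r θ| < 2 * Real.pi := by
    have := hWc.continuousAt (x := r)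
    have h1 := Metric.tendsto_nhds.1 this (2 * Real.pi) (by positivity)
    filter_upwards [h1] with s hs
    rwa [Real.dist_eq] at hs
  have e2 : ∀ᶠ s in 𝓝 r, δ < Rd f c s ^ 2 := by
    have h1 : Tendsto (fun s => Rd f c s ^ 2) (𝓝 r) (𝓝 (Rd f c r ^ 2)) :=
      ((Rd_cont hf c).pow 2).continuousAt
    exact h1.eventually_const_lt (by rw [hδ]; nlinarith [sq_pos_of_pos hR])
  filter_upwards [e1, e2] with s h1 h2 hs
  have hsR : 0 < Rd f c s := by
    have h4 : 0 ≤ Rd f c s := norm_nonneg _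
    rcases h4.eq_or_lt with h5 | h5
    · rw [← h5] at h2
      norm_num at h2
      linarith
    · exact h5
  obtain ⟨k, hk⟩ := wn_int hf hper hs hsR
  obtain ⟨l, hl⟩ := wn_int hf hper h0 hR
  rw [hW s hs h2.le, hW r h0 (by rw [hδ]; nlinarith [sq_pos_of_pos hR]), hk, hl, ← sub_mul,
    abs_mul, abs_of_pos (by positivity : (0 : ℝ) < 2 * Real.pi)] at h1
  have h4 : |(k : ℝ) - l| < 1 := by
    by_contra hcon
    push Not at hcon
    nlinarith
  have h5 : |k - l| < 1 := by exact_mod_cast h4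
  have h6 : k = l := by
    rw [abs_lt] at h5
    omega
  rw [hk, hl, h6]

end

end Pool.Agent.Helper7.BT
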