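import Pool.Agent.Helper7.BT.RoundT

/-!
# The torus: horizontal lines mapped into lines or circles about a fixed point
-/

set_option autoImplicit false
set_option maxHeartbeats 400000

noncomputable section

open scoped ComplexConjugate Topology Classical
open Complex Filter MeasureTheory intervalIntegral
open Pool.Agent.Helper7.BU (LS L2 clamp hd_re hd_im hd_conj exists_prim L2_cases
  L2_ge1 L2_ge2 L2_ge3 L2_comm L2_clamp clamp_continuous)

namespace Pool.Agent.Helper7.BT

/-- the calibrating function -/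
def HT (K R : ℝ) : ℝ := ∫ s in (0 : ℝ)..R, clamp (K * s)

theorem clampK_cont (K : ℝ) : Continuous fun s => clamp (K * s) :=
  clamp_continuous.comp (by fun_prop)

theorem hasDerivAt_HT {K : ℝ} {R : ℝ → ℝ} {ρ r : ℝ} (hR : HasDerivAt R ρ r) :
    HasDerivAt (fun s => HT K (R s)) (clamp (K * R r) * ρ) r := by
  have h1 : HasDerivAt (HT K) (clamp (K * R r)) (R r) :=
    integral_hasDerivAt_right ((clampK_cont K).intervalIntegrable _ _)
      ((clampK_cont K).stronglyMeasurableAtFilter _ _) (clampK_cont K).continuousAt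
  exact h1.comp r hR

theorem clamp_le (x : ℝ) : |clamp x| ≤ |x| := by
  unfold clamp
  rw [abs_le]
  have h1 := neg_abs_le x
  have h2 := le_abs_self x
  have h3 := abs_nonneg x
  constructor
  · rcases le_total x 1 with h | h
    · rw [min_eq_right h]; exact h1.trans (le_max_right _ _)
    · rw [min_eq_left h]; refine le_trans ?_ (le_max_right _ _); linarith
  · refine max_le (by linarith) ((min_le_right _ _).trans h2)

theorem abs_HT_le {K R : ℝ} (hR : 0 ≤ R) : |HT K R| ≤ |K| * R * R := by
  unfold HT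
  have h1 : ∀ s ∈ Set.uIoc 0 R, ‖clamp (K * s)‖ ≤ |K| * R := by
    intro s hs
    rw [Set.uIoc_of_le hR] at hs
    rw [Real.norm_eq_abs]
    refine (clamp_le _).trans ?_
    rw [abs_mul, abs_of_pos hs.1]
    exact mul_le_mul_of_nonneg_left hs.2 (abs_nonneg _)
  have h2 := norm_integral_le_of_norm_le_const h1
  rw [Real.norm_eq_abs, sub_zero, abs_of_nonneg hR] at h2
  exact h2

theorem HT_zero (R : ℝ) : HT 0 R = 0 := by
  unfold HT
  have : clamp 0 = 0 := by unfold clamp; norm_num
  simp [this]

/-- the calibration -/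
def HH (f : ℂ → ℂ) (c : ℂ) (r : ℝ) : ℝ := if Col f r then 0 else HT (wn f c r) (Rd f c r)

/-- its derivative -/
def hh (f : ℂ → ℂ) (c : ℂ) (r : ℝ) : ℝ :=
  if Col f r then 0 else clamp (wn f c r * Rd f c r) * rho f c r

section

variable {f : ℂ → ℂ} (hf : ContDiff ℝ 1 f) {c : ℂ}

theorem col_of_point {r : ℝ} (hp : ∀ θ, f (cz r θ) = f (cz r 0)) : Col f r := by
  intro θ₁ θ₂ θ₃
  rw [hp θ₁, hp θ₃, sub_self, zero_mul, zero_im]

include hf

theorem f_cont_rad (θ : ℝ) : Continuous (fun s => f (cz s θ)) := by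
  have h2 : Continuous (fun s : ℝ => ((s, θ) : ℝ × ℝ)) :=
    Continuous.prodMk continuous_id continuous_const
  have h3 := (f_cz_continuous hf).comp h2
  exact h3

theorem not_col_eventually {r : ℝ} (h : ¬ Col f r) : ∀ᶠ s in 𝓝 r, ¬ Col f s := by
  unfold Col at h
  push Not at h
  obtain ⟨θ₁, θ₂, θ₃, h1⟩ := h
  have hc : Continuous fun s => ((f (cz s θ₁) - f (cz s θ₃)) *
      conj (f (cz s θ₂) - f (cz s θ₃))).im := by
    have k1 := f_cont_rad hf θ₁
    have k2 := f_cont_rad hf θ₂
    have k3 := f_cont_rad hf θ₃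
    exact continuous_im.comp ((k1.sub k3).mul (continuous_conj.comp (k2.sub k3)))
  filter_upwards [hc.continuousAt.eventually_ne h1] with s hs hcol
  exact hs (hcol θ₁ θ₂ θ₃)

theorem not_round_eventually {r : ℝ} (h : ¬ Round f c r) : ∀ᶠ s in 𝓝 r, ¬ Round f c s := by
  unfold Round at h
  push Not at h
  obtain ⟨θ, h1⟩ := h
  have hc : Continuous fun s => ‖f (cz s θ) - c‖ - ‖f (cz s 0) - c‖ := by
    have k1 := f_cont_rad hf θ
    have k2 := f_cont_rad hf 0
    exact (continuous_norm.comp (k1.sub continuous_const)).sub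
      (continuous_norm.comp (k2.sub continuous_const))
  filter_upwards [hc.continuousAt.eventually_ne (sub_ne_zero.2 h1)] with s hs hround
  exact hs (by rw [hround θ, sub_self])

theorem point_of_col_round {r : ℝ} (h1 : Col f r) (h2 : Round f c r) (θ₁ θ₂ : ℝ) :
    f (cz r θ₁) = f (cz r θ₂) := by
  by_contra h12
  have hE0 : f (cz r θ₁) - f (cz r θ₂) ≠ 0 := sub_ne_zero.2 h12
  obtain ⟨E, hE⟩ : ∃ E : ℂ, E = f (cz r θ₁) - f (cz r θ₂) := ⟨_, rfl⟩
  rw [← hE] at hE0
  have hnE : 0 < ‖E‖ := norm_pos_iff.2 hE0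
  have hEE : E * conj E = (‖E‖ : ℂ) ^ 2 := by
    rw [mul_conj, normSq_eq_norm_sq]; push_cast; rfl
  -- coordinate along the line
  have him : ∀ θ, ((f (cz r θ) - f (cz r θ₂)) * conj E).im = 0 := by
    intro θ
    rw [hE]; exact h1 θ θ₁ θ₂
  obtain ⟨q, hq⟩ : ∃ q : ℝ → ℝ, ∀ θ, q θ = ((f (cz r θ) - c) * conj E).re := ⟨_, fun _ => rfl⟩
  have hqd : ∀ θ, HasDerivAt q (TT f r θ * conj E).re θ := by
    intro θ
    have h0 : HasDerivAt (fun s => (f (cz r s) - c) * conj E) (TT f r θ * conj E) θ :=
      ((hasDerivAt_angle hf r θ).sub_const _).mul_const _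
    have h3 := hd_re h0
    have h4 : q = fun s => ((f (cz r s) - c) * conj E).re := funext hq
    rw [h4]
    exact h3
  obtain ⟨b, hb⟩ : ∃ b : ℝ, ∀ θ, ((f (cz r θ) - c) * conj E).im = b := by
    refine ⟨((f (cz r θ₂) - c) * conj E).im, fun θ => ?_⟩
    have h3 := him θ
    have e : (f (cz r θ) - c) * conj E = (f (cz r θ) - f (cz r θ₂)) * conj E +
        (f (cz r θ₂) - c) * conj E := by ring
    rw [e, add_im, h3, zero_add]
  have hsq : ∀ θ, q θ ^ 2 = q 0 ^ 2 := by
    intro θ
    have h3 : ∀ θ, q θ ^ 2 + b ^ 2 = (‖f (cz r 0) - c‖ * ‖E‖) ^ 2 := by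
      intro θ
      rw [hq, ← hb θ]
      have h4 : ‖(f (cz r θ) - c) * conj E‖ ^ 2 = (‖f (cz r 0) - c‖ * ‖E‖) ^ 2 := by
        rw [norm_mul, RCLike.norm_conj, h2 θ]
      rw [← h4, ← normSq_eq_norm_sq, normSq_apply]
      ring
    have := h3 θ
    have := h3 0
    linarith
  have hconst : ∀ θ, q θ = q 0 := by
    by_cases h0 : q 0 = 0
    · intro θ
      have := hsq θ
      rw [h0] at this ⊢
      exact pow_eq_zero_iff (two_ne_zero) |>.1 (by linarith)
    · have hne : ∀ θ, q θ ≠ 0 := by
        intro θ h3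
        have := hsq θ
        rw [h3] at this
        exact h0 (pow_eq_zero_iff (two_ne_zero) |>.1 (by linarith))
      have hz : ∀ θ, (TT f r θ * conj E).re = 0 := by
        intro θ
        have h3 : HasDerivAt (fun s => q s ^ 2) (2 * q θ * (TT f r θ * conj E).re) θ := by
          have := (hqd θ).pow 2
          refine this.congr_deriv ?_
          push_cast
          ring
        have h4 : (fun s => q s ^ 2) = fun _ => q 0 ^ 2 := funext hsq
        rw [h4] at h3
        have h5 := h3.unique (hasDerivAt_const θ _)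
        have h6 : 2 * q θ ≠ 0 := mul_ne_zero two_ne_zero (hne θ)
        exact (mul_eq_zero.1 h5).resolve_left h6
      intro θ
      exact is_const_of_deriv_eq_zero (fun x => (hqd x).differentiableAt)
        (fun x => by rw [(hqd x).deriv, hz x]) _ _
  apply hE0
  have h3 : E * conj E = 0 := by
    have e : E * conj E = (f (cz r θ₁) - c) * conj E - (f (cz r θ₂) - c) * conj E := by
      rw [← sub_mul, hE]; ring
    rw [e]
    apply Complex.ext
    · rw [sub_re, ← hq, ← hq, hconst θ₁, hconst θ₂, sub_self, zero_re]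
    · rw [sub_im, hb, hb, sub_self, zero_im]
  rw [hEE] at h3
  have h4 : (‖E‖ : ℂ) = 0 := by
    exact pow_eq_zero_iff (two_ne_zero) |>.1 h3
  rw [ofReal_eq_zero, norm_eq_zero] at h4
  exact h4

omit hf in
theorem Rd_pos_of_not_col {r : ℝ} (h1 : ¬ Col f r) (h2 : Round f c r) : 0 < Rd f c r := by
  have h3 : 0 ≤ Rd f c r := norm_nonneg _
  rcases h3.eq_or_lt with h4 | h4
  · exfalso
    apply h1
    apply col_of_point
    intro θ
    have h5 : ‖f (cz r 0) - c‖ = 0 := h4.symm
    have h6 := h2 θ
    rw [h5, norm_eq_zero, sub_eq_zero] at h6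
    rw [norm_eq_zero, sub_eq_zero] at h5
    rw [h6, h5]
  · exact h4

/-- the derivative of the calibration where the image is not on a line -/
theorem HH_deriv_round (hper : Per f) (hyp : ∀ s, Col f s ∨ Round f c s) {r : ℝ}
    (h : ¬ Col f r) : HasDerivAt (HH f c) (hh f c r) r := by
  have h0 : Round f c r := (hyp r).resolve_left h
  have hR := Rd_pos_of_not_col h h0
  unfold hh
  rw [if_neg h]
  refine (hasDerivAt_HT (hasDerivAt_Rd hf hR)).congr_of_eventuallyEq ?_
  filter_upwards [not_col_eventually hf h, wn_const hf hper h0 hR] with s h1 h2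
  unfold HH
  rw [if_neg h1, h2 ((hyp s).resolve_left h1)]

theorem hh_le_round (hyp : ∀ s, Col f s ∨ Round f c s) {r : ℝ}
    (h : ¬ Col f r) : hh f c r ≤ PP f r := by
  have h0 : Round f c r := (hyp r).resolve_left h
  have hR := Rd_pos_of_not_col h h0
  unfold hh
  rw [if_neg h]
  have hround : ∀ᶠ s in 𝓝 r, Round f c s := by
    filter_upwards [not_col_eventually hf h] with s h1
    exact (hyp s).resolve_left h1
  refine le_trans ?_ (PP_round hf hround hR)
  rw [L2_comm]
  exact L2_clamp _ _

/-- the derivative of the calibration where the image is on a line -/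
theorem HH_deriv_col (hper : Per f) (hyp : ∀ s, Col f s ∨ Round f c s) {r : ℝ}
    (h : Col f r) : HasDerivAt (HH f c) 0 r ∧ 0 ≤ PP f r := by
  by_cases hround : Round f c r
  · have hp := point_of_col_round hf h hround
    refine ⟨?_, PP_nonneg_of_point hf hp⟩
    have hTT := TT_eq_zero_of_point hf hp
    -- the horizontal derivative is small near `r`
    have hsmall : ∀ ε : ℝ, 0 < ε → ∀ᶠ s in 𝓝 r, ∀ θ ∈ Set.Icc (0 : ℝ) 1,
        ‖TT f s θ‖ ≤ ε := by
      intro ε hε
      apply isCompact_Icc.eventually_forall_of_forall_eventually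
      intro θ _
      have h1 : Tendsto (fun p : ℝ × ℝ => ‖TT f p.1 p.2‖) (𝓝 (r, θ)) (𝓝 ‖TT f r θ‖) :=
        (continuous_norm.comp (TT_continuous hf)).continuousAt
      rw [hTT θ, norm_zero] at h1
      filter_upwards [h1.eventually_lt_const hε] with p hp
      exact hp.le
    have hH0 : HH f c r = 0 := by unfold HH; rw [if_pos h]
    -- bound for the calibration
    have hbd : ∀ s, ¬ Col f s → ∀ ε, (∀ θ ∈ Set.Icc (0 : ℝ) 1, ‖TT f s θ‖ ≤ ε) →
        |HH f c s| ≤ ε * Rd f c s ∧ (ε < Rd f c s → HH f c s = 0) := by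
      intro s h1 ε h2
      have h3 := (hyp s).resolve_left h1
      have hR := Rd_pos_of_not_col h1 h3
      have h4 := abs_wn_le h3 hR h2
      constructor
      · unfold HH
        rw [if_neg h1]
        refine (abs_HT_le hR.le).trans ?_
        exact mul_le_mul_of_nonneg_right h4 hR.le
      · intro h5
        obtain ⟨k, hk⟩ := wn_int hf hper h3 hR
        have h6 : |wn f c s| < 1 := by
          by_contra hcon
          push Not at hcon
          nlinarith
        rw [hk, abs_mul, abs_of_pos (by positivity : (0 : ℝ) < 2 * Real.pi)] at h6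
        have h7' : |(k : ℝ)| < 1 := by
          have := Real.pi_gt_three
          by_contra hcon
          push Not at hcon
          nlinarith
        have h7 : |k| < 1 := by exact_mod_cast h7'
        have h8 : k = 0 := by rw [abs_lt] at h7; omega
        unfold HH
        rw [if_neg h1, hk, h8]
        simp [HT_zero]
    rcases (norm_nonneg (f (cz r 0) - c)).eq_or_lt with hz | hz
    · -- the line is mapped to `c`
      have hzc : f (cz r 0) - c = 0 := norm_eq_zero.1 hz.symm
      have hO : (fun s => f (cz s 0) - f (cz r 0)) =O[𝓝 r] fun s => s - r :=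
        (hasDerivAt_rad hf r 0).differentiableAt.isBigO_sub
      obtain ⟨C, hC0, hC⟩ := hO.exists_pos
      rw [Asymptotics.isBigOWith_iff] at hC
      rw [hasDerivAt_iff_isLittleO]
      rw [Asymptotics.isLittleO_iff]
      intro ε hε
      have hε' : 0 < ε / C := by positivity
      filter_upwards [hsmall _ hε', hC] with s h1 h2
      rw [hH0, sub_zero, smul_zero, sub_zero, Real.norm_eq_abs]
      by_cases hcs : Col f s
      · unfold HH
        rw [if_pos hcs, abs_zero]
        positivity
      · have h5 := (hbd s hcs _ h1).1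
        have h6 : Rd f c s ≤ C * ‖s - r‖ := by
          have : f (cz s 0) - f (cz r 0) = f (cz s 0) - c := by
            rw [sub_eq_zero.1 hzc]
          rw [this] at h2
          exact h2
        refine h5.trans ?_
        calc ε / C * Rd f c s ≤ ε / C * (C * ‖s - r‖) := by gcongr
          _ = ε * ‖s - r‖ := by field_simp
    · -- the line is mapped to another point
      have hRr : 0 < Rd f c r := hz
      refine (hasDerivAt_const r (0 : ℝ)).congr_of_eventuallyEq ?_
      have hε : 0 < Rd f c r / 2 := by positivity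
      filter_upwards [hsmall _ hε,
        (Rd_cont hf c).continuousAt.eventually_const_lt (show Rd f c r / 2 < Rd f c r by linarith)]
        with s h1 h4
      by_cases hcs : Col f s
      · unfold HH; rw [if_pos hcs]
      · exact (hbd s hcs _ h1).2 h4
  · have h1 := not_round_eventually hf hround
    have hcol : ∀ᶠ s in 𝓝 r, Col f s := by
      filter_upwards [h1] with s h2
      exact (hyp s).resolve_right h2
    refine ⟨(hasDerivAt_const r (0 : ℝ)).congr_of_eventuallyEq ?_, PP_nonneg_of_line hf hper hcol⟩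
    filter_upwards [hcol] with s hs
    unfold HH
    rw [if_pos hs]

theorem HH_deriv (hper : Per f) (hyp : ∀ s, Col f s ∨ Round f c s) (r : ℝ) :
    HasDerivAt (HH f c) (hh f c r) r := by
  by_cases h : Col f r
  · have h1 := (HH_deriv_col hf hper hyp h).1
    unfold hh
    rw [if_pos h]
    exact h1
  · exact HH_deriv_round hf hper hyp h

theorem hh_le (hper : Per f) (hyp : ∀ s, Col f s ∨ Round f c s) (r : ℝ) :
    hh f c r ≤ PP f r := by
  by_cases h : Col f r
  · have h1 := (HH_deriv_col hf hper hyp h).2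
    unfold hh
    rw [if_pos h]
    exact h1
  · exact hh_le_round hf hyp h

theorem PP_continuous : Continuous (PP f) :=
  continuous_parametric_intervalIntegral_of_continuous' (LP_continuous hf) _ _

omit hf in
theorem HH_period (hv : ∀ z, f (z + I) = f z) (c : ℂ) : HH f c 0 = HH f c (-1) := by
  have e : ∀ θ : ℝ, cz (-1) θ = cz 0 θ + I := by
    intro θ; unfold cz; push_cast; ring
  have e1 : ∀ θ : ℝ, f (cz (-1) θ) = f (cz 0 θ) := fun θ => by rw [e, hv]
  have e2 : ∀ θ : ℝ, fderiv ℝ f (cz (-1) θ) = fderiv ℝ f (cz 0 θ) := by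
    intro θ
    rw [e, ← fderiv_comp_add_right]
    congr 1
    funext z
    exact hv z
  have hcol : Col f (-1) ↔ Col f 0 := by unfold Col; simp only [e1]
  have hTT : ∀ θ, TT f (-1) θ = TT f 0 θ := by intro θ; unfold TT; rw [e2]
  have hR : Rd f c (-1) = Rd f c 0 := by unfold Rd; rw [e1]
  have hw : wn f c (-1) = wn f c 0 := by
    unfold wn om
    simp only [hTT, e1, hR]
  unfold HH
  simp only [hcol, hR, hw]

/-- **Šverák's inequality on the torus for the class** -/
theorem torus_nonneg (hper : Per f) (hv : ∀ z, f (z + I) = f z)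
    (hyp : ∀ s, Col f s ∨ Round f c s) : 0 ≤ ∫ r in (-1 : ℝ)..0, PP f r := by
  have h3 := sub_le_integral_of_hasDeriv_right_of_le (g := HH f c) (g' := hh f c)
    (φ := PP f) (a := -1) (b := 0) (by norm_num)
    (fun x _ => (HH_deriv hf hper hyp x).continuousAt.continuousWithinAt)
    (fun x _ => (HH_deriv hf hper hyp x).hasDerivWithinAt)
    ((PP_continuous hf).integrableOn_Icc) (fun x _ => hh_le hf hper hyp x)
  rw [HH_period hv c, sub_self] at h3
  exact h3

end

end Pool.Agent.Helper7.BT
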